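import Pool.Agent.H91FL.Stubs

/-! BERN: a Bernstein type diagonalisation of length `ω₁`. -/

set_option autoImplicit false

namespace H91FL

open Cardinal

namespace BERN

universe u v

theorem main {T : Type u} {J : Type v} (hJ : #J ≤ ℵ₁) (hT : Uncountable T) (C : J → Set T)
    (hC : ∀ j, ¬ (C j).Countable) :
    ∃ D : Set T, ¬ Dᶜ.Countable ∧ ∀ j, ∃ x ∈ C j, x ∈ D := by
  classical
  obtain ⟨r, wo, hr⟩ := Cardinal.ord_eq J
  have hcount : ∀ i : J, {k | r k i}.Countable := by
    intro i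
    have h1 : (Ordinal.typein r i).card < #J := Cardinal.card_typein_lt i hr
    rw [← Cardinal.le_aleph0_iff_set_countable]
    have h2 : #{k | r k i} = (Ordinal.typein r i).card := by
      rfl
    rw [h2]
    have h3 : (Ordinal.typein r i).card < ℵ₁ := h1.trans_le hJ
    have h4 : (ℵ₁ : Cardinal.{v}) = Order.succ ℵ₀ := by
      rw [← Cardinal.aleph_zero, ← Cardinal.aleph_succ]
      simp
    rw [h4] at h3
    exact Order.lt_succ_iff.1 h3
  have hex : ∀ (i : J) (f : ∀ k, r k i → T × T), ∃ p : T × T, p.1 ∈ C i ∧ p.2 ∈ C i ∧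
      p.1 ≠ p.2 ∧ ∀ k (hk : r k i), p.1 ≠ (f k hk).1 ∧ p.1 ≠ (f k hk).2 ∧ p.2 ≠ (f k hk).1 ∧
        p.2 ≠ (f k hk).2 := by
    intro i f
    have hP : (⋃ k : {k | r k i}, ({(f k.1 k.2).1, (f k.1 k.2).2} : Set T)).Countable := by
      have := (hcount i).to_subtype
      exact Set.countable_iUnion fun k => (Set.toFinite _).countable
    have hU : ¬ (C i \ ⋃ k : {k | r k i}, ({(f k.1 k.2).1, (f k.1 k.2).2} : Set T)).Countable := by
      intro h
      exact hC i ((h.union hP).mono (by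
        intro x hx
        by_cases hx' : x ∈ ⋃ k : {k | r k i}, ({(f k.1 k.2).1, (f k.1 k.2).2} : Set T)
        · exact Or.inr hx'
        · exact Or.inl ⟨hx, hx'⟩))
    have hinf : (C i \ ⋃ k : {k | r k i}, ({(f k.1 k.2).1, (f k.1 k.2).2} : Set T)).Infinite :=
      fun h => hU h.countable
    obtain ⟨a, ha⟩ := hinf.nonempty
    obtain ⟨b, hb, hba⟩ := (hinf.sdiff (Set.finite_singleton a)).nonempty
    refine ⟨(a, b), ha.1, hb.1, fun h => hba (by simpa using h.symm), ?_⟩
    intro k hk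
    have h1 : ∀ x, x ∉ (⋃ k : {k | r k i}, ({(f k.1 k.2).1, (f k.1 k.2).2} : Set T)) →
        x ≠ (f k hk).1 ∧ x ≠ (f k hk).2 := by
      intro x hx
      constructor
      · intro h
        exact hx (Set.mem_iUnion.2 ⟨⟨k, hk⟩, by simp [h]⟩)
      · intro h
        exact hx (Set.mem_iUnion.2 ⟨⟨k, hk⟩, by simp [h]⟩)
    exact ⟨(h1 a ha.2).1, (h1 a ha.2).2, (h1 b hb.2).1, (h1 b hb.2).2⟩
  have wf : WellFounded r := wo.wf
  let h : J → T × T := wf.fix fun i f => Classical.choose (hex i f)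
  have hspec : ∀ i, (h i).1 ∈ C i ∧ (h i).2 ∈ C i ∧ (h i).1 ≠ (h i).2 ∧ ∀ k, r k i →
      (h i).1 ≠ (h k).1 ∧ (h i).1 ≠ (h k).2 ∧ (h i).2 ≠ (h k).1 ∧ (h i).2 ≠ (h k).2 := by
    intro i
    have e : h i = Classical.choose (hex i fun k _ => h k) := wf.fix_eq _ i
    rw [e]
    exact Classical.choose_spec (hex i fun k _ => h k)
  have htri : ∀ i j : J, r i j ∨ i = j ∨ r j i := fun i j => trichotomous_of r i j
  refine ⟨Set.range fun j => (h j).1, ?_, fun j => ⟨(h j).1, (hspec j).1, j, rfl⟩⟩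
  by_cases hJc : Countable J
  · intro hc
    have h1 : (Set.range fun j => (h j).1).Countable := Set.countable_range _
    have h2 := h1.union hc
    rw [Set.union_compl_self] at h2
    exact not_countable_iff.2 hT (Set.countable_univ_iff.1 h2)
  · intro hc
    have hsub : (Set.range fun j => (h j).2) ⊆ (Set.range fun j => (h j).1)ᶜ := by
      rintro _ ⟨j, rfl⟩ ⟨i, hi⟩
      dsimp only at hi
      rcases htri i j with hij | rfl | hij
      · exact ((hspec j).2.2.2 i hij).2.2.1 hi.symm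
      · exact (hspec i).2.2.1 hi
      · exact ((hspec i).2.2.2 j hij).2.1 hi
    have hinj : Function.Injective fun j => (h j).2 := by
      intro i j hij
      dsimp only at hij
      rcases htri i j with h1 | h1 | h1
      · exact absurd hij.symm ((hspec j).2.2.2 i h1).2.2.2
      · exact h1
      · exact absurd hij ((hspec i).2.2.2 j h1).2.2.2
    have h3 := hc.mono hsub
    have h4 : Countable J := by
      have := h3.to_subtype
      exact (Equiv.ofInjective _ hinj).injective.countable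
    exact hJc h4

end BERN

theorem t_BERN : S_BERN := by
  intro T I hT hI C
  obtain ⟨D, h1, h2⟩ := BERN.main (J := {i // ¬ (C i).Countable})
    ((Cardinal.mk_subtype_le _).trans hI) hT (fun j => C j.1) (fun j => j.2)
  refine ⟨D, h1, fun i hi => ?_⟩
  obtain ⟨x, hx, hxD⟩ := h2 ⟨i, hi⟩
  exact ⟨x, hx, hxD⟩

end H91FL
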