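import Pool.Agent.H91FL.Stubs

/-!
CLO (helper9): countable closed filtration of a set of size at most `ℵ₁`.
-/

universe u v w

open Cardinal

namespace H91FL

namespace CLO

open Set

/-- smallest subset containing `S` closed under `F` -/
def Cl {Y : Type u} (F : Finset Y → Finset Y → Finset Y) (S : Set Y) : Set Y :=
  ⋂₀ {C | S ⊆ C ∧ ∀ b a : Finset Y, (b : Set Y) ⊆ C → (a : Set Y) ⊆ C → (F b a : Set Y) ⊆ C}

lemma subset_Cl {Y : Type u} (F : Finset Y → Finset Y → Finset Y) (S : Set Y) : S ⊆ Cl F S :=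
  subset_sInter fun _ h => h.1

lemma closed_Cl {Y : Type u} (F : Finset Y → Finset Y → Finset Y) (S : Set Y) (b a : Finset Y)
    (hb : (b : Set Y) ⊆ Cl F S) (ha : (a : Set Y) ⊆ Cl F S) : (F b a : Set Y) ⊆ Cl F S :=
  subset_sInter fun _ h => h.2 b a (hb.trans (sInter_subset_of_mem h))
    (ha.trans (sInter_subset_of_mem h))

lemma Cl_mono {Y : Type u} (F : Finset Y → Finset Y → Finset Y) {S T : Set Y} (h : S ⊆ T) :
    Cl F S ⊆ Cl F T :=
  subset_sInter fun _ hC => sInter_subset_of_mem ⟨h.trans hC.1, hC.2⟩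

/-- iteration -/
def It {Y : Type u} (F : Finset Y → Finset Y → Finset Y) (S : Set Y) : ℕ → Set Y
  | 0 => S
  | n + 1 => It F S n ∪ ⋃ b ∈ {b : Finset Y | (b : Set Y) ⊆ It F S n},
      ⋃ a ∈ {a : Finset Y | (a : Set Y) ⊆ It F S n}, (F b a : Set Y)

lemma countable_finsets {Y : Type u} {C : Set Y} (hC : C.Countable) :
    {b : Finset Y | (b : Set Y) ⊆ C}.Countable := by
  have h := Set.countable_ofPred_finite_subset hC
  refine (h.preimage_of_injOn (f := fun b : Finset Y => (b : Set Y))
    Finset.coe_injective.injOn).mono ?_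
  intro b hb
  exact ⟨b.finite_toSet, hb⟩

lemma It_countable {Y : Type u} {F : Finset Y → Finset Y → Finset Y} (hF : ∀ b a, (F b a : Set Y).Countable)
    {S : Set Y} (hS : S.Countable) (n : ℕ) : (It F S n).Countable := by
  induction n with
  | zero => exact hS
  | succ n ih =>
    refine ih.union ?_
    exact (countable_finsets ih).biUnion fun b _ => (countable_finsets ih).biUnion fun a _ => hF b a

lemma It_mono {Y : Type u} (F : Finset Y → Finset Y → Finset Y) (S : Set Y) : Monotone (It F S) :=
  monotone_nat_of_le_succ fun _ => subset_union_left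

lemma exists_It {Y : Type u} (F : Finset Y → Finset Y → Finset Y) (S : Set Y) (b : Finset Y)
    (hb : (b : Set Y) ⊆ ⋃ n, It F S n) : ∃ n, (b : Set Y) ⊆ It F S n := by
  exact (It_mono F S).directed_le.exists_mem_subset_of_finset_subset_biUnion (s := b) (by simpa using hb) |> fun ⟨n, h⟩ => ⟨n, h⟩

lemma Cl_countable {Y : Type u} {F : Finset Y → Finset Y → Finset Y} (hF : ∀ b a, (F b a : Set Y).Countable)
    {S : Set Y} (hS : S.Countable) : (Cl F S).Countable := by
  refine (countable_iUnion fun n => It_countable hF hS n).mono (sInter_subset_of_mem ⟨?_, ?_⟩)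
  · exact subset_iUnion_of_subset 0 subset_rfl
  · intro b a hb ha
    obtain ⟨n, hn⟩ := exists_It F S b hb
    obtain ⟨m, hm⟩ := exists_It F S a ha
    refine subset_iUnion_of_subset (max n m + 1) ?_
    refine subset_union_of_subset_right ?_ _
    intro x hx
    simp only [mem_iUnion, mem_ofPred_eq, exists_prop]
    exact ⟨b, hn.trans (It_mono F S (le_max_left _ _)), a, hm.trans (It_mono F S (le_max_right _ _)), hx⟩

end CLO

open Set in
theorem t_CLO : S_CLO.{u} := by
  intro Y hY F
  rcases isEmpty_or_nonempty Y with hE | hN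
  · refine ⟨PUnit.{u+1}, inferInstance, inferInstance, fun _ => ∅, fun _ => countable_empty,
      fun _ _ _ => subset_rfl, inferInstance, fun y => hE.elim y, fun _ b a _ _ x _ => hE.elim x⟩
  have he : #((#Y).ord.ToType) = #Y := mk_ord_toType _
  obtain ⟨e⟩ := Cardinal.eq.mp he
  refine ⟨(#Y).ord.ToType, inferInstance, inferInstance, fun β => CLO.Cl F (e '' Iic β), ?_, ?_,
    ?_, ?_, ?_⟩
  · intro β
    apply CLO.Cl_countable fun b a => (F b a).countable_toSet
    apply Countable.image
    have h0 : #(Iio β) < #Y := by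
      have := mk_Iio_lt β (by simp)
      rwa [he] at this
    have h2 : (Iio β).Countable := by
      rw [← Cardinal.le_aleph0_iff_set_countable, ← lt_aleph_one_iff]
      exact lt_of_lt_of_le h0 hY
    rw [← Iio_insert]
    exact h2.insert β
  · intro β γ h
    exact CLO.Cl_mono F (image_mono (Iic_subset_Iic.mpr h))
  · exact ⟨e.symm (Classical.arbitrary Y)⟩
  · intro y
    exact ⟨e.symm y, CLO.subset_Cl F _ ⟨e.symm y, mem_Iic.mpr le_rfl, e.apply_symm_apply y⟩⟩
  · intro β b a hb ha
    exact CLO.closed_Cl F _ b a hb ha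

end H91FL
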