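import Pool.Agent.H91FL.Stubs

universe u v w

namespace H91FL

namespace EQ

theorem fwd {X : Type u} (a b : FL X) :
    FL.lift (BL.var (X := X)) a ≤ FL.lift (BL.var (X := X)) b ↔ a ≤ b := by
  have key : ∀ t : FL X, BL.lift (L := WithBot (WithTop (FL X)))
      (fun x => ((FL.var x : WithTop (FL X)) : WithBot (WithTop (FL X))))
      (FL.lift (BL.var (X := X)) t) = ((t : WithTop (FL X)) : WithBot (WithTop (FL X))) := by
    intro t
    induction t using FL.induction with
    | hv x => simp
    | hs a b ha hb => rw [map_sup, map_sup, ha, hb, WithTop.coe_sup, WithBot.coe_sup]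
    | hi a b ha hb => rw [map_inf, map_inf, ha, hb, WithTop.coe_inf, WithBot.coe_inf]
  constructor
  · intro h
    have h1 := OrderHomClass.mono (BL.lift (L := WithBot (WithTop (FL X)))
      (fun x => ((FL.var x : WithTop (FL X)) : WithBot (WithTop (FL X))))) h
    rw [key, key] at h1
    exact WithTop.coe_le_coe.1 (WithBot.coe_le_coe.1 h1)
  · intro h
    exact OrderHomClass.mono (FL.lift (BL.var (X := X))) h

/-- the lower end -/
def zz (X : Type u) : FL (Option (Option X)) := FL.var none ⊓ FL.var (some none)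
/-- the upper end -/
def oo (X : Type u) : FL (Option (Option X)) := FL.var none ⊔ FL.var (some none)

theorem zz_le (X : Type u) : zz X ≤ oo X := inf_le_left.trans le_sup_left

/-- projection to the bounded lattice -/
def kk (X : Type u) : LatticeHom (FL (Option (Option X))) (BL X) :=
  FL.lift fun y => match y with
    | none => ⊥
    | some none => ⊤
    | some (some x) => BL.var x

theorem kk_zz (X : Type u) : kk X (zz X) = ⊥ := by
  unfold zz
  rw [map_inf]
  exact bot_inf_eq _

theorem kk_oo (X : Type u) : kk X (oo X) = ⊤ := by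
  unfold oo
  rw [map_sup]
  exact bot_sup_eq _

theorem bwd (X : Type u) : ∃ h : BL X → FL (Option (Option X)), ∀ a b, h a ≤ h b ↔ a ≤ b := by
  let _ : BoundedOrder (Set.Icc (zz X) (oo X)) :=
    { top := ⟨oo X, zz_le X, le_rfl⟩
      bot := ⟨zz X, le_rfl, zz_le X⟩
      le_top := fun a => a.2.2
      bot_le := fun a => a.2.1 }
  let H : BoundedLatticeHom (BL X) (Set.Icc (zz X) (oo X)) :=
    BL.lift (L := Set.Icc (zz X) (oo X))
      (fun x => ⟨(FL.var (some (some x)) ⊓ oo X) ⊔ zz X,
        le_sup_right, sup_le inf_le_right (zz_le X)⟩)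
  have key : ∀ t : BL X, kk X (H t).1 = t := by
    intro t
    induction t using BL.induction with
    | hv x =>
      have h1 : (H (BL.var x)).1 = (FL.var (some (some x)) ⊓ oo X) ⊔ zz X := rfl
      rw [h1, map_sup, map_inf, kk_oo, kk_zz, inf_top_eq, sup_bot_eq]
      rfl
    | hb =>
      have h1 : (H ⊥).1 = zz X := by rw [map_bot]; rfl
      rw [h1, kk_zz]
    | ht =>
      have h1 : (H ⊤).1 = oo X := by rw [map_top]; rfl
      rw [h1, kk_oo]
    | hs a b ha hb =>
      have h1 : (H (a ⊔ b)).1 = (H a).1 ⊔ (H b).1 := by rw [map_sup]; rfl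
      rw [h1, map_sup, ha, hb]
    | hi a b ha hb =>
      have h1 : (H (a ⊓ b)).1 = (H a).1 ⊓ (H b).1 := by rw [map_inf]; rfl
      rw [h1, map_inf, ha, hb]
  refine ⟨fun t => (H t).1, fun a b => ⟨fun h => ?_, fun h => ?_⟩⟩
  · have h1 := OrderHomClass.mono (kk X) h
    simp only [key] at h1
    exact h1
  · exact OrderHomClass.mono H h

end EQ

theorem t_EQ : S_EQ.{u} := by
  intro P _
  constructor
  · rintro ⟨X, ⟨e⟩⟩
    exact ⟨X, ⟨OrderEmbedding.ofMapLEIff (fun p => FL.lift (BL.var (X := X)) (e p))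
      fun a b => (EQ.fwd _ _).trans e.le_iff_le⟩⟩
  · rintro ⟨X, ⟨e⟩⟩
    obtain ⟨h, hh⟩ := EQ.bwd X
    exact ⟨Option (Option X), ⟨OrderEmbedding.ofMapLEIff (fun p => h (e p))
      fun a b => (hh _ _).trans e.le_iff_le⟩⟩

end H91FL
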