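import Pool.Agent.H91FL.Stubs

/-! Free bounded lattices have the Freese–Nation property (helper520). -/

universe u v w

namespace H91FL

namespace FNBL

deriving instance Countable for BTerm

theorem countable_supp {X : Type u} (F : Finset X) :
    {c : BL X | Supp (F : Set X) c}.Countable := by
  have h : {c : BL X | Supp (F : Set X) c} ⊆
      Set.range (fun t : BTerm {x // x ∈ F} => BTerm.eval (fun x => BL.var x.1) t) := by
    intro c hc
    induction hc with
    | @var x hx => exact ⟨.var ⟨x, hx⟩, rfl⟩
    | bot => exact ⟨.bot, rfl⟩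
    | top => exact ⟨.top, rfl⟩
    | sup _ _ h1 h2 =>
      obtain ⟨a, rfl⟩ := h1
      obtain ⟨b, rfl⟩ := h2
      exact ⟨.sup a b, rfl⟩
    | inf _ _ h1 h2 =>
      obtain ⟨a, rfl⟩ := h1
      obtain ⟨b, rfl⟩ := h2
      exact ⟨.inf a b, rfl⟩
  exact (Set.countable_range _).mono h

theorem exists_code (X : Type u) : ∃ code : Finset X → BL X → ℕ,
    ∀ F : Finset X, Set.InjOn (code F) {c : BL X | Supp (F : Set X) c} := by
  choose code hcode using fun F : Finset X =>
    Set.countable_iff_exists_injOn.1 (countable_supp F)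
  exact ⟨code, hcode⟩

theorem finite_code {X : Type u} {code : Finset X → BL X → ℕ}
    (hcode : ∀ F : Finset X, Set.InjOn (code F) {c : BL X | Supp (F : Set X) c}) (F : Finset X)
    (N : ℕ) : {c : BL X | Supp (F : Set X) c ∧ code F c ≤ N}.Finite := by
  apply Set.Finite.of_finite_image (f := code F)
  · apply (Set.finite_Iic N).subset
    rintro _ ⟨c, hc, rfl⟩
    exact hc.2
  · exact (hcode F).mono fun c hc => hc.1

end FNBL

open FNBL in
theorem t_FNBL : S_FNBL.{u} := by
  classical
  intro X
  obtain ⟨code, hcode⟩ := exists_code X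
  choose s hs using fun t : BL X => exists_finset_supp t
  have hfin : ∀ t : BL X, (⋃ F ∈ (((s t).powerset : Finset (Finset X)) : Set (Finset X)),
      ({c : BL X | Supp (F : Set X) c ∧ code F c ≤ code F (upp F t)} ∪
        {c : BL X | Supp (F : Set X) c ∧ code F c ≤ code F (low F t)})).Finite := by
    intro t
    refine Set.Finite.biUnion (Finset.finite_toSet _) fun F _ => ?_
    exact (finite_code hcode F _).union (finite_code hcode F _)
  refine ⟨fun t => (hfin t).toFinset, ?_⟩
  intro p q hpq
  set F : Finset X := s p ∩ s q with hF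
  have hu : Supp (F : Set X) (upp (F : Set X) p) := upp_supp _ _
  have hl : Supp (F : Set X) (low (F : Set X) q) := low_supp _ _
  have h1 : p ≤ upp (F : Set X) p := le_upp _ _
  have h2 : low (F : Set X) q ≤ q := low_le _ _
  have h3 : upp (F : Set X) p ≤ q := by
    have e : upp (F : Set X) p = upp (s q : Set X) p := by
      unfold upp
      refine Supp.lift_congr (S := (s p : Set X)) (fun x hx => ?_) (hs p)
      have hx' : x ∈ s p := hx
      have : (x ∈ (F : Set X)) ↔ x ∈ (s q : Set X) := by
        simp [hF, hx']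
      by_cases hxq : x ∈ (s q : Set X)
      · rw [if_pos (this.2 hxq), if_pos hxq]
      · rw [if_neg (fun h => hxq (this.1 h)), if_neg hxq]
    rw [e]
    exact upp_le (hs q) hpq
  have h4 : upp (F : Set X) p ≤ low (F : Set X) q := le_low hu h3
  have hFp : F ∈ (s p).powerset := Finset.mem_powerset.2 Finset.inter_subset_left
  have hFq : F ∈ (s q).powerset := Finset.mem_powerset.2 Finset.inter_subset_right
  rcases le_total (code F (upp (F : Set X) p)) (code F (low (F : Set X) q)) with h | h
  · refine ⟨upp (F : Set X) p, ?_, ?_, h1, h3⟩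
    · rw [Set.Finite.mem_toFinset]
      refine Set.mem_biUnion (Finset.mem_coe.2 hFp) (Or.inl ⟨hu, le_rfl⟩)
    · rw [Set.Finite.mem_toFinset]
      refine Set.mem_biUnion (Finset.mem_coe.2 hFq) (Or.inr ⟨hu, h⟩)
  · refine ⟨low (F : Set X) q, ?_, ?_, h1.trans h4, h2⟩
    · rw [Set.Finite.mem_toFinset]
      refine Set.mem_biUnion (Finset.mem_coe.2 hFp) (Or.inl ⟨hl, h⟩)
    · rw [Set.Finite.mem_toFinset]
      refine Set.mem_biUnion (Finset.mem_coe.2 hFq) (Or.inr ⟨hl, le_rfl⟩)

end H91FL
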