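import Pool.Agent.H91FL.Stubs

universe u v w

open Cardinal

namespace H91FL

namespace FNRANK

theorem exists_wo (Q : Type u) : ∃ (W : Type u) (_ : LinearOrder W) (_ : WellFoundedLT W)
    (e : W → Q), Function.Surjective e := by
  classical
  exact ⟨Q, linearOrderOfSTO WellOrderingRel, ⟨WellOrderingRel.isWellOrder.wf⟩, id,
    Function.surjective_id⟩

/-- closure of a point -/
def cl {Q : Type u} (F : Q → Finset Q) (x : Q) : Set Q :=
  {y | Relation.ReflTransGen (fun a b => b ∈ F a) x y}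

/-- points reached after `n` steps -/
def st {Q : Type u} (F : Q → Finset Q) (x : Q) : ℕ → Set Q
  | 0 => {x}
  | n + 1 => ⋃ y ∈ st F x n, (F y : Set Q)

theorem st_countable {Q : Type u} (F : Q → Finset Q) (x : Q) (n : ℕ) : (st F x n).Countable := by
  induction n with
  | zero => exact Set.countable_singleton x
  | succ n ih => exact ih.biUnion fun y _ => (F y).countable_toSet

theorem cl_countable {Q : Type u} (F : Q → Finset Q) (x : Q) : (cl F x).Countable := by
  refine (Set.countable_iUnion (st_countable F x)).mono ?_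
  intro y hy
  have hy' : Relation.ReflTransGen (fun a b => b ∈ F a) x y := hy
  induction hy' with
  | refl => exact Set.mem_iUnion.2 ⟨0, rfl⟩
  | tail h1 h2 ih =>
    obtain ⟨n, hn⟩ := Set.mem_iUnion.1 (ih h1)
    exact Set.mem_iUnion.2 ⟨n + 1, Set.mem_biUnion hn h2⟩

end FNRANK

open FNRANK in
theorem t_FNRANK : S_FNRANK.{u} := by
  intro Q _ hF
  classical
  obtain ⟨F, hF⟩ := hF
  obtain ⟨W, iW, iWF, e, he⟩ := exists_wo Q
  have hne : ∀ x : Q, {w : W | x ∈ cl F (e w)}.Nonempty := by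
    intro x
    obtain ⟨w, hw⟩ := he x
    refine ⟨w, ?_⟩
    show Relation.ReflTransGen (fun a b => b ∈ F a) (e w) x
    rw [hw]
  let rk : Q → W := fun x => (wellFounded_lt (α := W)).min {w : W | x ∈ cl F (e w)} (hne x)
  have hrk : ∀ x, x ∈ cl F (e (rk x)) := fun x =>
    (wellFounded_lt (α := W)).min_mem {w : W | x ∈ cl F (e w)} (hne x)
  have hmin : ∀ x w, x ∈ cl F (e w) → rk x ≤ w := fun x w hw =>
    not_lt.1 ((wellFounded_lt (α := W)).not_lt_min {w : W | x ∈ cl F (e w)} hw)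
  have hcl : ∀ y z, z ∈ F y → rk z ≤ rk y := by
    intro y z hz
    exact hmin z (rk y) (Relation.ReflTransGen.tail (hrk y) hz)
  have hinj : ∀ w : W, ∃ g : Q → ℕ, Set.InjOn g (cl F (e w)) := fun w =>
    Set.countable_iff_exists_injOn.1 (cl_countable F (e w))
  choose g hg using hinj
  refine ⟨W, iW, iWF, rk, fun x => g (rk x) x,
    fun x => (F x).filter fun z => z ≤ x ∧ rk z < rk x,
    fun x => (F x).filter fun z => x ≤ z ∧ rk z < rk x, ?_, ?_, ?_, ?_, ?_, ?_, ?_⟩
  · exact fun x y z => le_trans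
  · intro x y h1 h2
    simp only at h2
    have hx := hrk x
    have hy := hrk y
    rw [← h1] at hy h2
    exact hg (rk x) hx hy h2
  · intro x z hz
    rw [Finset.mem_filter] at hz
    exact ⟨hz.2.2, fun y hy => le_trans hy hz.2.1⟩
  · intro x z hz
    rw [Finset.mem_filter] at hz
    exact ⟨hz.2.2, fun y hy => le_trans hz.2.1 hy⟩
  · intro x y h1 h2
    obtain ⟨r, hr1, hr2, hr3, hr4⟩ := hF y x h2
    exact ⟨r, Finset.mem_filter.2 ⟨hr2, hr4, lt_of_le_of_lt (hcl y r hr1) h1⟩, hr3⟩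
  · intro x y h1 h2
    obtain ⟨r, hr1, hr2, hr3, hr4⟩ := hF x y h2
    exact ⟨r, Finset.mem_filter.2 ⟨hr1, hr3, lt_of_le_of_lt (hcl y r hr2) h1⟩, hr4⟩
  · intro x z hz z' hz'
    rw [Finset.mem_filter] at hz hz'
    exact Or.inr (le_trans hz.2.1 hz'.2.1)

end H91FL
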