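import Pool.Agent.H91FL.Stubs

/-! PWREP: the poset `PW` has a finite representation -/

namespace H91FL

namespace PWREP

/-- labels -/
inductive Lb : Type
  | own (q : PW)
  | yA (a : Set ℕ)
  | yB (b : Set ℕ)
  | row (c : Finset ℕ) (k : ℕ)
  | col (c : Finset ℕ) (k : ℕ)

open Classical in
/-- `a ∩ [0, i)` -/
noncomputable def tr (a : Set ℕ) (i : ℕ) : Finset ℕ := (Finset.range i).filter (fun n => n ∈ a)

theorem mem_tr (a : Set ℕ) (i n : ℕ) : n ∈ tr a i ↔ n < i ∧ n ∈ a := by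
  simp [tr]

open Classical in
noncomputable def A : PW → Finset Lb
  | .p a i => {Lb.own (.p a i), Lb.yA a, Lb.row (tr a i) i} ∪
      (Finset.range (i + 1)).biUnion fun l =>
        ((Finset.range l).powerset.filter (fun d => ∀ n ∈ a, n < l → n ∈ d)).image
          (fun d => Lb.col d l)
  | .x a b h => {Lb.own (.x a b h), Lb.yB b}
  | .r b j => {Lb.own (.r b j)}

open Classical in
noncomputable def B : PW → Finset Lb
  | .p a i => {Lb.own (.p a i)}
  | .x a b h => {Lb.own (.x a b h), Lb.yA a}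
  | .r b j => {Lb.own (.r b j), Lb.yB b, Lb.col (tr b j) j} ∪
      (Finset.range j).biUnion fun k =>
        ((Finset.range k).powerset.filter (fun c => ∀ n ∈ c, n ∈ b)).image
          (fun c => Lb.row c k)

theorem mem_Ap (a : Set ℕ) (i : ℕ) (y : Lb) : y ∈ A (.p a i) ↔
    y = Lb.own (.p a i) ∨ y = Lb.yA a ∨ y = Lb.row (tr a i) i ∨
      ∃ l ≤ i, ∃ d : Finset ℕ, d ⊆ Finset.range l ∧ (∀ n ∈ a, n < l → n ∈ d) ∧ y = Lb.col d l := by
  simp only [A, Finset.mem_union, Finset.mem_insert, Finset.mem_singleton, Finset.mem_biUnion,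
    Finset.mem_range, Finset.mem_image, Finset.mem_filter, Finset.mem_powerset, or_assoc]
  constructor
  · rintro (h | h | h | ⟨l, hl, d, ⟨h1, h2⟩, h3⟩)
    · exact Or.inl h
    · exact Or.inr (Or.inl h)
    · exact Or.inr (Or.inr (Or.inl h))
    · exact Or.inr (Or.inr (Or.inr ⟨l, by omega, d, h1, h2, h3.symm⟩))
  · rintro (h | h | h | ⟨l, hl, d, h1, h2, h3⟩)
    · exact Or.inl h
    · exact Or.inr (Or.inl h)
    · exact Or.inr (Or.inr (Or.inl h))
    · exact Or.inr (Or.inr (Or.inr ⟨l, by omega, d, ⟨h1, h2⟩, h3.symm⟩))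

theorem mem_Ax (a b : Set ℕ) (h : a ⊆ b) (y : Lb) : y ∈ A (.x a b h) ↔
    y = Lb.own (.x a b h) ∨ y = Lb.yB b := by
  simp [A]

theorem mem_Ar (b : Set ℕ) (j : ℕ) (y : Lb) : y ∈ A (.r b j) ↔ y = Lb.own (.r b j) := by
  simp [A]

theorem mem_Bp (a : Set ℕ) (i : ℕ) (y : Lb) : y ∈ B (.p a i) ↔ y = Lb.own (.p a i) := by
  simp [B]

theorem mem_Bx (a b : Set ℕ) (h : a ⊆ b) (y : Lb) : y ∈ B (.x a b h) ↔
    y = Lb.own (.x a b h) ∨ y = Lb.yA a := by
  simp [B]

theorem mem_Br (b : Set ℕ) (j : ℕ) (y : Lb) : y ∈ B (.r b j) ↔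
    y = Lb.own (.r b j) ∨ y = Lb.yB b ∨ y = Lb.col (tr b j) j ∨
      ∃ k < j, ∃ c : Finset ℕ, c ⊆ Finset.range k ∧ (∀ n ∈ c, n ∈ b) ∧ y = Lb.row c k := by
  simp only [B, Finset.mem_union, Finset.mem_insert, Finset.mem_singleton, Finset.mem_biUnion,
    Finset.mem_range, Finset.mem_image, Finset.mem_filter, Finset.mem_powerset, or_assoc]
  constructor
  · rintro (h | h | h | ⟨l, hl, d, ⟨h1, h2⟩, h3⟩)
    · exact Or.inl h
    · exact Or.inr (Or.inl h)
    · exact Or.inr (Or.inr (Or.inl h))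
    · exact Or.inr (Or.inr (Or.inr ⟨l, hl, d, h1, h2, h3.symm⟩))
  · rintro (h | h | h | ⟨l, hl, d, h1, h2, h3⟩)
    · exact Or.inl h
    · exact Or.inr (Or.inl h)
    · exact Or.inr (Or.inr (Or.inl h))
    · exact Or.inr (Or.inr (Or.inr ⟨l, hl, d, ⟨h1, h2⟩, h3.symm⟩))

theorem le_def (u v : PW) : u ≤ v ↔ PW.le u v := Iff.rfl

theorem main (u v : PW) : u ≤ v ↔ ∃ y, y ∈ A u ∧ y ∈ B v := by
  rw [le_def]
  rcases u with ⟨a, i⟩ | ⟨a, b, h⟩ | ⟨b, j⟩ <;> rcases v with ⟨a', i'⟩ | ⟨a', b', h'⟩ | ⟨b', j'⟩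
  · -- p, p
    simp only [PW.le, mem_Ap, mem_Bp]
    constructor
    · rintro ⟨rfl, rfl⟩
      exact ⟨_, Or.inl rfl, rfl⟩
    · rintro ⟨y, h1, rfl⟩
      rcases h1 with h1 | h1 | h1 | ⟨l, -, d, -, -, h1⟩
      · simp only [Lb.own.injEq, PW.p.injEq] at h1
        exact ⟨h1.1.symm, h1.2.symm⟩
      all_goals simp at h1
  · -- p, x
    simp only [PW.le, mem_Ap, mem_Bx]
    constructor
    · rintro rfl
      exact ⟨Lb.yA a, Or.inr (Or.inl rfl), Or.inr rfl⟩
    · rintro ⟨y, h1, rfl | rfl⟩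
      · rcases h1 with h1 | h1 | h1 | ⟨l, -, d, -, -, h1⟩ <;> simp at h1
      · rcases h1 with h1 | h1 | h1 | ⟨l, -, d, -, -, h1⟩
        · simp at h1
        · simp only [Lb.yA.injEq] at h1
          exact h1.symm
        · simp at h1
        · simp at h1
  · -- p, r
    simp only [PW.le, mem_Ap, mem_Br]
    constructor
    · intro hn
      rcases Nat.lt_or_ge i j' with hij | hij
      · refine ⟨Lb.row (tr a i) i, Or.inr (Or.inr (Or.inl rfl)),
          Or.inr (Or.inr (Or.inr ⟨i, hij, tr a i, ?_, ?_, rfl⟩))⟩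
        · intro n hn'
          rw [mem_tr] at hn'
          rw [Finset.mem_range]
          exact hn'.1
        · intro n hn'
          rw [mem_tr] at hn'
          exact hn n hn'.2 hn'.1 (by omega)
      · refine ⟨Lb.col (tr b' j') j', Or.inr (Or.inr (Or.inr ⟨j', hij, tr b' j', ?_, ?_, rfl⟩)),
          Or.inr (Or.inr (Or.inl rfl))⟩
        · intro n hn'
          rw [mem_tr] at hn'
          rw [Finset.mem_range]
          exact hn'.1
        · intro n ha hn'
          rw [mem_tr]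
          exact ⟨hn', hn n ha (by omega) hn'⟩
    · rintro ⟨y, h1, h2⟩ n ha hi hj
      rcases h1 with rfl | rfl | rfl | ⟨l, hl, d, hd1, hd2, rfl⟩
      · rcases h2 with h2 | h2 | h2 | ⟨k, -, c, -, -, h2⟩ <;> simp at h2
      · rcases h2 with h2 | h2 | h2 | ⟨k, -, c, -, -, h2⟩ <;> simp at h2
      · rcases h2 with h2 | h2 | h2 | ⟨k, hk, c, hc1, hc2, h2⟩
        · simp at h2
        · simp at h2
        · simp at h2
        · simp only [Lb.row.injEq] at h2
          refine hc2 n ?_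
          rw [← h2.1, mem_tr]
          exact ⟨hi, ha⟩
      · rcases h2 with h2 | h2 | h2 | ⟨k, hk, c, hc1, hc2, h2⟩
        · simp at h2
        · simp at h2
        · simp only [Lb.col.injEq] at h2
          have h3 := hd2 n ha (by omega)
          rw [h2.1, mem_tr] at h3
          exact h3.2
        · simp at h2
  · -- x, p
    simp only [PW.le, mem_Ax, mem_Bp, false_iff]
    rintro ⟨y, h1, rfl⟩
    simp at h1
  · -- x, x
    simp only [PW.le, mem_Ax, mem_Bx]
    constructor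
    · rintro ⟨rfl, rfl⟩
      exact ⟨_, Or.inl rfl, Or.inl rfl⟩
    · rintro ⟨y, rfl | rfl, h2⟩
      · simp only [Lb.own.injEq, PW.x.injEq] at h2
        simpa using h2
      · simp at h2
  · -- x, r
    simp only [PW.le, mem_Ax, mem_Br]
    constructor
    · rintro rfl
      exact ⟨Lb.yB b, Or.inr rfl, Or.inr (Or.inl rfl)⟩
    · rintro ⟨y, rfl | rfl, h2⟩
      · rcases h2 with h2 | h2 | h2 | ⟨k, -, c, -, -, h2⟩ <;> simp at h2
      · rcases h2 with h2 | h2 | h2 | ⟨k, -, c, -, -, h2⟩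
        · simp at h2
        · simp only [Lb.yB.injEq] at h2
          exact h2
        · simp at h2
        · simp at h2
  · -- r, p
    simp only [PW.le, mem_Ar, mem_Bp, false_iff]
    rintro ⟨y, rfl, h2⟩
    simp at h2
  · -- r, x
    simp only [PW.le, mem_Ar, mem_Bx, false_iff]
    rintro ⟨y, rfl, h2⟩
    simp at h2
  · -- r, r
    simp only [PW.le, mem_Ar, mem_Br]
    constructor
    · rintro ⟨rfl, rfl⟩
      exact ⟨_, rfl, Or.inl rfl⟩
    · rintro ⟨y, rfl, h2⟩
      rcases h2 with h2 | h2 | h2 | ⟨k, -, c, -, -, h2⟩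
      · simp only [Lb.own.injEq, PW.r.injEq] at h2
        exact h2
      all_goals simp at h2

end PWREP

theorem t_PWREP : S_PWREP := ⟨PWREP.Lb, PWREP.A, PWREP.B, PWREP.main⟩

end H91FL
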