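import Pool.Agent.H91FL.Stubs

set_option autoImplicit false

/-!
# QSET: an uncountable Q-set refutes the weak Freese-Nation property of P(omega) (helper398)
-/

open Cardinal Filter Topology

namespace H91FL

namespace QSET

theorem closed_mem {K : Set (ℕ → Bool)} (hK : IsClosed K) {t : ℕ → Bool}
    (h : ∀ n, ∃ s ∈ K, ∀ i < n, s i = t i) : t ∈ K := by
  choose s hs1 hs2 using h
  refine hK.mem_of_tendsto (f := s) (b := atTop) ?_ (Eventually.of_forall hs1)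
  rw [tendsto_pi_nhds]
  intro i
  apply tendsto_const_nhds.congr'
  filter_upwards [eventually_gt_atTop i] with n hn
  exact (hs2 n i hn).symm

/-- the branch of `t` -/
def br (t : ℕ → Bool) : Set ℕ := {k | ∃ n : ℕ, k = Encodable.encode ((List.range n).map t)}

/-- the tree of `K` -/
def hat (K : Set (ℕ → Bool)) : Set ℕ := {k | ∃ t ∈ K, k ∈ br t}

theorem br_sub {K : Set (ℕ → Bool)} {t : ℕ → Bool} (h : t ∈ K) : br t ⊆ hat K :=
  fun _ hk => ⟨t, h, hk⟩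

theorem mem_of_br {K : Set (ℕ → Bool)} (hK : IsClosed K) {t : ℕ → Bool} (h : br t ⊆ hat K) :
    t ∈ K := by
  apply closed_mem hK
  intro n
  obtain ⟨s, hs, n', hn'⟩ := h ⟨n, rfl⟩
  have h1 := Encodable.encode_injective hn'
  have h2 : n = n' := by
    have := congrArg List.length h1
    simpa using this
  subst h2
  refine ⟨s, hs, fun i hi => ?_⟩
  have h3 := (List.map_inj_left.1 h1) i (List.mem_range.2 hi)
  exact h3.symm

theorem card_I (T0 : Set (ℕ → Bool)) (hc : #T0 = ℵ₁) (F : Set ℕ → Set (Set ℕ))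
    (hF1 : ∀ a, (F a).Countable) : #(⋃ t : T0, F (br t.val) : Set (Set ℕ)) ≤ ℵ₁ := by
  refine (Cardinal.mk_iUnion_le_sum_mk).trans ?_
  refine (Cardinal.sum_le_sum _ (fun _ => ℵ₀) (fun t => ?_)).trans ?_
  · exact Cardinal.le_aleph0_iff_set_countable.2 (hF1 _)
  · rw [Cardinal.sum_const', hc, Cardinal.mul_aleph0_eq (Cardinal.aleph0_le_aleph 1)]

end QSET

open QSET in
theorem t_QSET : S_QSET := by
  rintro hB ⟨T, hT, hQ⟩ ⟨F, hF1, hF2⟩
  have h1 : ℵ₁ ≤ #T := by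
    rw [← Cardinal.succ_aleph0]
    apply Order.succ_le_of_lt
    rw [← not_le, Cardinal.le_aleph0_iff_set_countable]
    exact hT
  obtain ⟨T0, hT0, hc⟩ := Cardinal.le_mk_iff_exists_subset.1 h1
  have hT0u : Uncountable T0 := by
    rw [← Cardinal.aleph0_lt_mk_iff, hc]
    exact Cardinal.aleph0_lt_aleph_one
  obtain ⟨D, hD1, hD2⟩ := hB T0 (⋃ t : T0, F (br t.val) : Set (Set ℕ)) hT0u (card_I T0 hc F hF1)
    (fun e => {t : T0 | br t.val ⊆ e.val})
  set D' : Set (ℕ → Bool) := Subtype.val '' Dᶜ with hD'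
  have hD'T0 : D' ⊆ T0 := by
    rintro _ ⟨t, _, rfl⟩
    exact t.2
  obtain ⟨K, hK1, hK2⟩ := hQ D' (hD'T0.trans hT0)
  have hD'u : ¬ D'.Countable := by
    intro h
    apply hD1
    exact Set.countable_of_injective_of_countable_image (Subtype.val_injective.injOn) h
  obtain ⟨n, hn⟩ : ∃ n, ¬ (D' ∩ K n).Countable := by
    by_contra hcon
    push Not at hcon
    apply hD'u
    refine (Set.countable_iUnion hcon).mono ?_
    intro t ht
    have ht' := ht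
    rw [hK2] at ht'
    obtain ⟨n, hn⟩ := Set.mem_iUnion.1 ht'.2
    exact Set.mem_iUnion.2 ⟨n, ht, hn⟩
  obtain ⟨e, he1, he2, he3, he4⟩ : ∃ e, e ∈ F (hat (K n)) ∧ e ⊆ hat (K n) ∧
      (∃ t : T0, e ∈ F (br t.val)) ∧ ¬ {t ∈ D' ∩ K n | br t ⊆ e}.Countable := by
    by_contra hcon
    push Not at hcon
    apply hn
    have h2 : ({e ∈ F (hat (K n)) | e ⊆ hat (K n) ∧ ∃ t : T0, e ∈ F (br t.val)}).Countable :=
      (hF1 _).mono (fun e he => he.1)
    refine (h2.biUnion (t := fun e _ => {t ∈ D' ∩ K n | br t ⊆ e}) ?_).mono ?_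
    · rintro e ⟨k1, k2, t, k3⟩
      exact hcon e k1 k2 ⟨t, k3⟩
    · intro t ht
      obtain ⟨e, k1, k2, k3, k4⟩ := hF2 (br t) (hat (K n)) (br_sub ht.2)
      rw [Set.mem_iUnion₂]
      exact ⟨e, ⟨k2, k4, ⟨t, hD'T0 ht.1⟩, k1⟩, ht, k3⟩
  have hi : e ∈ (⋃ t : T0, F (br t.val) : Set (Set ℕ)) := by
    obtain ⟨t, ht⟩ := he3
    exact Set.mem_iUnion.2 ⟨t, ht⟩
  obtain ⟨s, hs1, hs2⟩ := hD2 ⟨e, hi⟩ (by
    intro h
    apply he4
    refine (h.image Subtype.val).mono ?_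
    rintro t ⟨ht1, ht2⟩
    exact ⟨⟨t, hD'T0 ht1.1⟩, ht2, rfl⟩)
  have hs3 : s.val ∈ K n := mem_of_br (hK1 n) (Set.Subset.trans hs1 he2)
  have hs4 : s.val ∈ D' := by
    rw [hK2]
    exact ⟨hT0 s.2, Set.mem_iUnion.2 ⟨n, hs3⟩⟩
  obtain ⟨s', hs5, hs6⟩ := hs4
  rw [Subtype.val_injective hs6] at hs5
  exact hs5 hs2

end H91FL
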