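import Pool.Agent.H91FL.Stubs

/-!
Task REP: the main closure argument.
-/

universe u

open Cardinal

namespace H91FL

namespace REP

open Classical

variable {P Y : Type u}

/-- the point `p` matches the pair `(b, a)` on `F` -/
def Mt (A B : P → Finset Y) (p : P) (b a F : Finset Y) : Prop :=
  ∀ y ∈ F, (y ∈ B p ↔ y ∈ b) ∧ (y ∈ A p ↔ y ∈ a)

/-- the pair `(b, a)` is finitely matched -/
def InE (A B : P → Finset Y) (b a : Finset Y) : Prop := ∀ F : Finset Y, ∃ p, Mt A B p b a F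

theorem trans [Preorder P] {A B : P → Finset Y} (hrep : ∀ p q : P, p ≤ q ↔ ∃ y ∈ A p, y ∈ B q)
    {bx ax b' a' bz az : Finset Y} (hx : InE A B bx ax) (hy : InE A B b' a')
    (hz : InE A B bz az) (h1 : ∃ y ∈ ax, y ∈ b') (h2 : ∃ y ∈ a', y ∈ bz) :
    ∃ y ∈ ax, y ∈ bz := by
  obtain ⟨y1, h1a, h1b⟩ := h1
  obtain ⟨y2, h2a, h2b⟩ := h2
  obtain ⟨p, hp⟩ := hx (ax ∪ bx ∪ bz ∪ {y1})
  obtain ⟨q, hq⟩ := hz (ax ∪ bx ∪ bz ∪ {y1} ∪ A p ∪ {y2})
  obtain ⟨m, hm⟩ := hy {y1, y2}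
  have e1 : y1 ∈ A p := (hp y1 (by simp)).2.2 h1a
  have e2 : y2 ∈ B q := (hq y2 (by simp)).1.2 h2b
  have e3 : y1 ∈ B m := (hm y1 (by simp)).1.2 h1b
  have e4 : y2 ∈ A m := (hm y2 (by simp)).2.2 h2a
  have hpm : p ≤ m := (hrep p m).2 ⟨y1, e1, e3⟩
  have hmq : m ≤ q := (hrep m q).2 ⟨y2, e4, e2⟩
  obtain ⟨w, hw1, hw2⟩ := (hrep p q).1 (hpm.trans hmq)
  have e5 : w ∈ bz := (hq w (by simp [hw1])).1.1 hw2
  have e6 : w ∈ ax := (hp w (by simp [e5])).2.1 hw1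
  exact ⟨w, e6, e5⟩

theorem closed {A B : P → Finset Y} (Fw : Finset Y → Finset Y → Finset Y)
    (hFw : ∀ b a, ¬ InE A B b a → ¬ ∃ p, Mt A B p b a (Fw b a)) (Z : Set Y)
    (hZ : ∀ b a : Finset Y, (b : Set Y) ⊆ Z → (a : Set Y) ⊆ Z → (Fw b a : Set Y) ⊆ Z)
    {b a : Finset Y} (h : InE A B b a) :
    InE A B (b.filter (fun y => y ∈ Z)) (a.filter (fun y => y ∈ Z)) := by
  by_contra hcon
  apply hFw _ _ hcon
  have hsub := hZ (b.filter (fun y => y ∈ Z)) (a.filter (fun y => y ∈ Z))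
    (fun y hy => (Finset.mem_filter.1 hy).2) (fun y hy => (Finset.mem_filter.1 hy).2)
  obtain ⟨p, hp⟩ := h (Fw (b.filter (fun y => y ∈ Z)) (a.filter (fun y => y ∈ Z)))
  refine ⟨p, fun y hy => ?_⟩
  have hyZ : y ∈ Z := hsub hy
  obtain ⟨g1, g2⟩ := hp y hy
  refine ⟨g1.trans ?_, g2.trans ?_⟩
  · rw [Finset.mem_filter]
    exact ⟨fun h => ⟨h, hyZ⟩, fun h => h.1⟩
  · rw [Finset.mem_filter]
    exact ⟨fun h => ⟨h, hyZ⟩, fun h => h.1⟩

theorem exists_Fw (A B : P → Finset Y) : ∃ Fw : Finset Y → Finset Y → Finset Y,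
    ∀ b a, ¬ InE A B b a → ¬ ∃ p, Mt A B p b a (Fw b a) := by
  have h : ∀ b a : Finset Y, ∃ F : Finset Y, ¬ InE A B b a → ¬ ∃ p, Mt A B p b a F := by
    intro b a
    by_cases h : InE A B b a
    · exact ⟨∅, fun h' => absurd h h'⟩
    · have h' := h
      unfold InE at h'
      push Not at h'
      obtain ⟨F, hF⟩ := h'
      exact ⟨F, fun _ ⟨p, hp⟩ => hF p hp⟩
  choose Fw hFw using h
  exact ⟨Fw, hFw⟩

/-- a finite set in the union of an increasing family lies in one member -/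
theorem fin_in {W : Type u} [LinearOrder W] (Z : W → Set Y) (hmono : Monotone Z) (β : W)
    (hne : ∃ γ, γ < β) (s : Finset Y) (hs : (s : Set Y) ⊆ {y | ∃ γ < β, y ∈ Z γ}) :
    ∃ γ < β, (s : Set Y) ⊆ Z γ := by
  induction s using Finset.induction_on with
  | empty =>
    obtain ⟨γ, hγ⟩ := hne
    exact ⟨γ, hγ, by simp⟩
  | insert y s _ ih =>
    obtain ⟨γ, hγ, h1⟩ := ih (fun z hz => hs (by
      rw [Finset.coe_insert]
      exact Set.mem_insert_of_mem _ hz))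
    obtain ⟨δ, hδ, h2⟩ := hs (show y ∈ ((insert y s : Finset Y) : Set Y) by simp)
    refine ⟨max γ δ, max_lt hγ hδ, ?_⟩
    rw [Finset.coe_insert]
    intro z hz
    rcases hz with hz | hz
    · rw [hz]
      exact hmono (le_max_right γ δ) h2
    · exact hmono (le_max_left γ δ) (h1 hz)

theorem fin_cov {W : Type u} [LinearOrder W] [Nonempty W] (Z : W → Set Y)
    (hmono : ∀ β γ, β ≤ γ → Z β ⊆ Z γ) (hcov : ∀ y, ∃ β, y ∈ Z β) (s : Finset Y) :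
    ∃ β, (s : Set Y) ⊆ Z β := by
  induction s using Finset.induction_on with
  | empty => exact ⟨Classical.arbitrary W, by simp⟩
  | insert y s _ ih =>
    obtain ⟨β, h1⟩ := ih
    obtain ⟨γ, h2⟩ := hcov y
    refine ⟨max β γ, ?_⟩
    rw [Finset.coe_insert]
    intro z hz
    rcases hz with hz | hz
    · rw [hz]
      exact hmono _ _ (le_max_right β γ) h2
    · exact hmono _ _ (le_max_left β γ) (h1 hz)

theorem countable_finsets (Z : Set Y) (hZ : Z.Countable) :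
    {s : Finset Y | (s : Set Y) ⊆ Z}.Countable := by
  have h := (Set.countable_ofPred_finite_subset hZ).preimage (Finset.coe_injective (α := Y))
  refine h.mono fun s hs => ?_
  exact ⟨s.finite_toSet, hs⟩

/-- the rank data of the closure of a representation over a small set of labels -/
theorem main [Preorder P] (hclo : ∀ F : Finset Y → Finset Y → Finset Y,
    ∃ (W : Type u) (_ : LinearOrder W) (_ : WellFoundedLT W) (Z : W → Set Y),
      (∀ β, (Z β).Countable) ∧ (∀ β γ, β ≤ γ → Z β ⊆ Z γ) ∧ Nonempty W ∧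
      (∀ y, ∃ β, y ∈ Z β) ∧
      (∀ β, ∀ b a : Finset Y, (b : Set Y) ⊆ Z β → (a : Set Y) ⊆ Z β → (F b a : Set Y) ⊆ Z β))
    {A B : P → Finset Y} (hrep : ∀ p q : P, p ≤ q ↔ ∃ y, y ∈ A p ∧ y ∈ B q) :
    ∃ (E : Type u) (R : E → E → Prop), RankData E R ∧ ∃ j : P → E, ∀ p q, p ≤ q ↔ R (j p) (j q) := by
  obtain ⟨Fw, hFw⟩ := exists_Fw A B
  obtain ⟨W, hW1, hW2, Z, hZc, hmono, hWn, hcov, hcl⟩ := hclo Fw
  let E : Type u := {x : Finset Y × Finset Y // InE A B x.1 x.2}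
  let R : E → E → Prop := fun x y => ∃ w, w ∈ x.1.2 ∧ w ∈ y.1.1
  refine ⟨E, R, ?_, fun p => ⟨(B p, A p), fun F => ⟨p, fun y _ => ⟨Iff.rfl, Iff.rfl⟩⟩⟩, hrep⟩
  -- the rank
  have hrk : ∀ x : E, ∃ β, ((x.1.1 : Set Y) ⊆ Z β ∧ (x.1.2 : Set Y) ⊆ Z β) ∧
      ∀ γ, ((x.1.1 : Set Y) ⊆ Z γ ∧ (x.1.2 : Set Y) ⊆ Z γ) → β ≤ γ := by
    intro x
    have hne : {β | (x.1.1 : Set Y) ⊆ Z β ∧ (x.1.2 : Set Y) ⊆ Z β}.Nonempty := by
      obtain ⟨β, h1⟩ := fin_cov Z hmono hcov (x.1.1)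
      obtain ⟨γ, h2⟩ := fin_cov Z hmono hcov (x.1.2)
      exact ⟨max β γ, h1.trans (hmono _ _ (le_max_left _ _)), h2.trans (hmono _ _ (le_max_right _ _))⟩
    obtain ⟨β, hβ, hmin⟩ := (wellFounded_lt (α := W)).has_min _ hne
    exact ⟨β, hβ, fun γ hγ => not_lt.1 (hmin γ hγ)⟩
  choose rk hrk1 hrk2 using hrk
  -- the index
  have hK : ∀ β, {x : E | (x.1.1 : Set Y) ⊆ Z β ∧ (x.1.2 : Set Y) ⊆ Z β}.Countable := by
    intro β
    have h1 := countable_finsets (Z β) (hZc β)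
    have h2 := (h1.prod h1).preimage (Subtype.val_injective (p := fun x : Finset Y × Finset Y =>
      InE A B x.1 x.2))
    refine h2.mono ?_
    intro x hx
    exact Set.mem_prod.2 ⟨hx.1, hx.2⟩
  have hK' : ∀ β, ∃ f : E → ℕ,
      Set.InjOn f {x : E | (x.1.1 : Set Y) ⊆ Z β ∧ (x.1.2 : Set Y) ⊆ Z β} := fun β =>
    Set.countable_iff_exists_injOn.1 (hK β)
  choose f hf using hK'
  -- the lower approximations
  have hL : ∀ x : E, ∃ L : Finset E,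
      (∀ z ∈ L, rk z < rk x ∧ (∀ w ∈ z.1.1, w ∈ x.1.1) ∧ (∀ w ∈ z.1.2, w ∈ x.1.2)) ∧
      (∀ z ∈ L, ∀ z' ∈ L, z = z') ∧
      (∀ y : E, rk y < rk x → ∃ z ∈ L, (∀ w ∈ x.1.1, w ∈ y.1.2 → w ∈ z.1.1) ∧
        (∀ w ∈ x.1.2, w ∈ y.1.1 → w ∈ z.1.2)) := by
    intro x
    by_cases hne : ∃ γ, γ < rk x
    · set Zl : Set Y := {y | ∃ γ < rk x, y ∈ Z γ} with hZl
      have hZcl : ∀ b a : Finset Y, (b : Set Y) ⊆ Zl → (a : Set Y) ⊆ Zl →
          (Fw b a : Set Y) ⊆ Zl := by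
        intro b a hb ha
        obtain ⟨γ, hγ, h1⟩ := fin_in Z hmono (rk x) hne b hb
        obtain ⟨δ, hδ, h2⟩ := fin_in Z hmono (rk x) hne a ha
        intro w hw
        exact ⟨max γ δ, max_lt hγ hδ, hcl (max γ δ) b a (h1.trans (hmono _ _ (le_max_left _ _)))
          (h2.trans (hmono _ _ (le_max_right _ _))) hw⟩
      have hζ : InE A B (x.1.1.filter (fun y => y ∈ Zl)) (x.1.2.filter (fun y => y ∈ Zl)) :=
        closed Fw hFw Zl hZcl x.2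
      refine ⟨{⟨(x.1.1.filter (fun y => y ∈ Zl), x.1.2.filter (fun y => y ∈ Zl)), hζ⟩},
        ?_, ?_, ?_⟩
      · intro z hz
        rw [Finset.mem_singleton] at hz
        subst hz
        refine ⟨?_, fun w hw => (Finset.mem_filter.1 hw).1, fun w hw => (Finset.mem_filter.1 hw).1⟩
        obtain ⟨γ, hγ, h1⟩ := fin_in Z hmono (rk x) hne (x.1.1.filter (fun y => y ∈ Zl))
          (fun w hw => (Finset.mem_filter.1 hw).2)
        obtain ⟨δ, hδ, h2⟩ := fin_in Z hmono (rk x) hne (x.1.2.filter (fun y => y ∈ Zl))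
          (fun w hw => (Finset.mem_filter.1 hw).2)
        refine lt_of_le_of_lt (hrk2 _ (max γ δ) ⟨?_, ?_⟩) (max_lt hγ hδ)
        · exact h1.trans (hmono _ _ (le_max_left _ _))
        · exact h2.trans (hmono _ _ (le_max_right _ _))
      · intro z hz z' hz'
        rw [Finset.mem_singleton] at hz hz'
        rw [hz, hz']
      · intro y hy
        refine ⟨_, Finset.mem_singleton_self _, fun w hw hw' => ?_, fun w hw hw' => ?_⟩
        · exact Finset.mem_filter.2 ⟨hw, rk y, hy, (hrk1 y).2 hw'⟩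
        · exact Finset.mem_filter.2 ⟨hw, rk y, hy, (hrk1 y).1 hw'⟩
    · exact ⟨∅, fun z hz => absurd hz (Finset.notMem_empty z),
        fun z hz => absurd hz (Finset.notMem_empty z), fun y hy => absurd ⟨rk y, hy⟩ hne⟩
  choose L hL1 hL2 hL3 using hL
  refine ⟨W, hW1, hW2, rk, fun x => f (rk x) x, L, L, ?_, ?_, ?_, ?_, ?_, ?_, ?_⟩
  · intro x y z h1 h2
    exact trans hrep x.2 y.2 z.2 h1 h2
  · intro x y h1 h2
    have h3 : f (rk x) x = f (rk x) y := by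
      have h4 : f (rk x) x = f (rk y) y := h2
      rw [h4, h1]
    exact hf (rk x) (hrk1 x) (by rw [h1]; exact hrk1 y) h3
  · intro x z hz
    obtain ⟨h1, h2, h3⟩ := hL1 x z hz
    exact ⟨h1, fun y ⟨w, hw, hw'⟩ => ⟨w, hw, h2 w hw'⟩⟩
  · intro x z hz
    obtain ⟨h1, h2, h3⟩ := hL1 x z hz
    exact ⟨h1, fun y ⟨w, hw, hw'⟩ => ⟨w, h3 w hw, hw'⟩⟩
  · rintro x y hy ⟨w, hw, hw'⟩
    obtain ⟨z, hz, h1, h2⟩ := hL3 x y hy
    exact ⟨z, hz, w, hw, h1 w hw' hw⟩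
  · rintro x y hy ⟨w, hw, hw'⟩
    obtain ⟨z, hz, h1, h2⟩ := hL3 x y hy
    exact ⟨z, hz, w, h2 w hw hw', hw'⟩
  · intro x z hz z' hz'
    exact Or.inl (hL2 x z hz z' hz')

theorem card_labels (hP : #P ≤ ℵ₁) {Y0 : Type u} (A B : P → Finset Y0) :
    #{y : Y0 // ∃ p, y ∈ A p ∨ y ∈ B p} ≤ ℵ₁ := by
  have h1 : {y : Y0 | ∃ p, y ∈ A p ∨ y ∈ B p} = ⋃ p, ((A p ∪ B p : Finset Y0) : Set Y0) := by
    ext y
    simp
  have h2 : #{y : Y0 // ∃ p, y ∈ A p ∨ y ∈ B p} = #(⋃ p, ((A p ∪ B p : Finset Y0) : Set Y0)) := by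
    rw [← h1]
    rfl
  rw [h2]
  refine (Cardinal.mk_iUnion_le _).trans ?_
  have h3 : ⨆ p, #((A p ∪ B p : Finset Y0) : Set Y0) ≤ ℵ₁ := by
    apply ciSup_le'
    intro p
    exact ((Cardinal.lt_aleph0_of_finite _).le).trans (Cardinal.aleph0_le_aleph 1)
  calc #P * ⨆ p, #((A p ∪ B p : Finset Y0) : Set Y0) ≤ ℵ₁ * ℵ₁ := mul_le_mul' hP h3
    _ = ℵ₁ := Cardinal.mul_eq_self (Cardinal.aleph0_le_aleph 1)

end REP

theorem t_REP : S_REP.{u} := by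
  classical
  intro hC P _ hP hrep
  obtain ⟨Y0, A, B, h⟩ := hrep
  have hY := REP.card_labels hP A B
  refine REP.main (Y := {y : Y0 // ∃ p, y ∈ A p ∨ y ∈ B p}) (hC _ hY)
    (A := fun p => (A p).subtype (fun y => ∃ p, y ∈ A p ∨ y ∈ B p))
    (B := fun p => (B p).subtype (fun y => ∃ p, y ∈ A p ∨ y ∈ B p)) ?_
  intro p q
  rw [h p q]
  constructor
  · rintro ⟨y, h1, h2⟩
    exact ⟨⟨y, p, Or.inl h1⟩, Finset.mem_subtype.2 h1, Finset.mem_subtype.2 h2⟩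
  · rintro ⟨y, h1, h2⟩
    exact ⟨y.1, Finset.mem_subtype.1 h1, Finset.mem_subtype.1 h2⟩

end H91FL
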