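import Pool.Agent.H91FL.H
import Pool.Agent.H91FL.EQ
import Pool.Agent.H91FL.FNBL
import Pool.Agent.H91FL.FNRANK
import Pool.Agent.H91FL.REP
import Pool.Agent.H91FL.CLO
import Pool.Agent.H91FL.PWREP
import Pool.Agent.H91FL.BERN
import Pool.Agent.H91FL.QSET

universe u v w

open Cardinal

namespace H91FL

/-- The free lattice has the universal property: every map from `X` to a lattice extends
uniquely to a lattice homomorphism. -/
theorem FL.existsUnique_hom {X : Type u} {L : Type v} [Lattice L] (f : X → L) :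
    ∃! φ : LatticeHom (FL X) L, ∀ x, φ (FL.var x) = f x := by
  refine ⟨FL.lift f, fun x => rfl, fun ψ hψ => ?_⟩
  refine DFunLike.ext _ _ fun t => ?_
  induction t using FL.induction with
  | hv x => exact hψ x
  | hs a b ha hb => rw [map_sup, map_sup, ha, hb]
  | hi a b ha hb => rw [map_inf, map_inf, ha, hb]

theorem finRep_of_FN {Q : Type u} [PartialOrder Q] (h : FNProp Q) : FinRep Q := by
  classical
  obtain ⟨F, hF⟩ := h
  refine ⟨Q, fun p => (F p).filter (fun r => p ≤ r), fun q => (F q).filter (fun r => r ≤ q),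
    fun p q => ⟨fun h => ?_, ?_⟩⟩
  · obtain ⟨r, h1, h2, h3, h4⟩ := hF p q h
    exact ⟨r, by simp [h1, h3], by simp [h2, h4]⟩
  · rintro ⟨y, h1, h2⟩
    rw [Finset.mem_filter] at h1 h2
    exact h1.2.trans h2.2

theorem finRep_comap {P Q : Type u} [PartialOrder P] [PartialOrder Q] (e : P ↪o Q)
    (h : FinRep Q) : FinRep P := by
  obtain ⟨Y, A, B, hAB⟩ := h
  exact ⟨Y, fun p => A (e p), fun q => B (e q), fun p q => by
    rw [← e.le_iff_le]; exact hAB _ _⟩

theorem embeds_of_rank {P E : Type u} [PartialOrder P] {R : E → E → Prop}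
    (hR : RankData E R) (j : P → E) (hj : ∀ p q, p ≤ q ↔ R (j p) (j q)) : EmbedsFree P := by
  rw [t_EQ P]
  obtain ⟨f, g, h1, h2⟩ := t_H E R hR
  refine ⟨E × Bool, ⟨OrderEmbedding.ofMapLEIff (fun p => g (j p)) fun p q => ?_⟩⟩
  rw [hj p q, ← h2]
  constructor
  · intro h
    exact h.trans ((h2 _ _).2 ((hj q q).1 le_rfl))
  · intro h
    exact h.trans (h1 _)

theorem embeds_iff_FN (P : Type u) [PartialOrder P] :
    EmbedsFree P ↔ ∃ (Q : Type u) (_ : PartialOrder Q), FNProp Q ∧ Nonempty (P ↪o Q) := by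
  constructor
  · intro h
    obtain ⟨X, ⟨e⟩⟩ := (t_EQ P).1 h
    exact ⟨BL X, inferInstance, t_FNBL X, ⟨e⟩⟩
  · rintro ⟨Q, iQ, hQ, ⟨e⟩⟩
    exact embeds_of_rank (t_FNRANK Q hQ) e (fun p q => e.le_iff_le.symm)

theorem finRep_of_embeds (P : Type u) [PartialOrder P] (h : EmbedsFree P) : FinRep P := by
  obtain ⟨X, ⟨e⟩⟩ := (t_EQ P).1 h
  exact finRep_comap e (finRep_of_FN (t_FNBL X))

theorem embeds_iff_finRep (P : Type u) [PartialOrder P] (hP : #P ≤ ℵ₁) :
    EmbedsFree P ↔ FinRep P := by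
  refine ⟨finRep_of_embeds P, fun h => ?_⟩
  obtain ⟨E, R, hR, j, hj⟩ := t_REP t_CLO P hP h
  exact embeds_of_rank hR j hj

theorem mk_PW : #PW ≤ 𝔠 := by
  let c : PW → Set ℕ × Set ℕ × ℕ × ℕ := fun z => match z with
    | .p a i => (a, ∅, i, 0)
    | .x a b _ => (a, b, 0, 1)
    | .r b j => (b, ∅, j, 2)
  have hc : Function.Injective c := by
    rintro (⟨a, i⟩ | ⟨a, b, h⟩ | ⟨b, j⟩) (⟨a', i'⟩ | ⟨a', b', h'⟩ | ⟨b', j'⟩) h <;>
      simp_all [c]
  have := Cardinal.mk_le_of_injective hc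
  simpa [Cardinal.mk_prod, Cardinal.mk_set] using this

theorem PW_CH (h : (𝔠 : Cardinal.{0}) = ℵ₁) : EmbedsFree PW :=
  (embeds_iff_finRep PW (mk_PW.trans h.le)).2 t_PWREP

end H91FL
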