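import Pool.Agent.H91FL.Stubs

/-!
Task BIP: posets of height at most one.
-/

universe u

open Cardinal

namespace H91FL

namespace BIP

open Classical in
/-- the embedding -/
noncomputable def emb {P Y : Type u} [PartialOrder P] (A B : P → Finset Y) (p : P) :
    BL (Y ⊕ P) :=
  if ∃ q, q < p then (B p).sup (fun y => BL.var (Sum.inl y)) ⊔ BL.var (Sum.inr p)
  else (A p).inf (fun y => BL.var (Sum.inl y)) ⊓ BL.var (Sum.inr p)

theorem val_sup {P Y : Type u} (v : Y ⊕ P → Prop) (s : Finset Y) (x : Y ⊕ P) :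
    BL.lift v (s.sup (fun y => BL.var (Sum.inl y)) ⊔ BL.var x) ↔
      (∃ y ∈ s, v (Sum.inl y)) ∨ v x := by
  rw [map_sup, map_finset_sup, BL.lift_var, Finset.sup_eq_iSup]
  simp

theorem val_inf {P Y : Type u} (v : Y ⊕ P → Prop) (s : Finset Y) (x : Y ⊕ P) :
    BL.lift v (s.inf (fun y => BL.var (Sum.inl y)) ⊓ BL.var x) ↔
      (∀ y ∈ s, v (Sum.inl y)) ∧ v x := by
  rw [map_inf, map_finset_inf, BL.lift_var, Finset.inf_eq_iInf]
  simp

end BIP

theorem t_BIP : S_BIP.{u} := by
  intro P _ hP hrep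
  obtain ⟨Y, A, B, hAB⟩ := hrep
  refine ⟨Y ⊕ P, ⟨OrderEmbedding.ofMapLEIff (BIP.emb A B) fun p q => ⟨fun h => ?_, fun h => ?_⟩⟩⟩
  · by_cases hp : ∃ r, r < p
    · -- only the generator of `p` is true
      have h1 := OrderHomClass.mono (BL.lift (fun x : Y ⊕ P => x = Sum.inr p)) h
      have h2 : BL.lift (fun x : Y ⊕ P => x = Sum.inr p) (BIP.emb A B p) := by
        unfold BIP.emb
        rw [if_pos hp, BIP.val_sup]
        exact Or.inr rfl
      have h3 : BL.lift (fun x : Y ⊕ P => x = Sum.inr p) (BIP.emb A B q) := h1 h2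
      unfold BIP.emb at h3
      by_cases hq : ∃ r, r < q
      · rw [if_pos hq, BIP.val_sup] at h3
        rcases h3 with ⟨y, _, h4⟩ | h4
        · exact absurd h4 (by simp)
        · exact (Sum.inr_injective h4).symm.le
      · rw [if_neg hq, BIP.val_inf] at h3
        exact (Sum.inr_injective h3.2).symm.le
    · have h1 := OrderHomClass.mono (BL.lift (fun x : Y ⊕ P => x = Sum.inr p ∨
        ∃ y ∈ A p, x = Sum.inl y)) h
      have h2 : BL.lift (fun x : Y ⊕ P => x = Sum.inr p ∨ ∃ y ∈ A p, x = Sum.inl y)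
          (BIP.emb A B p) := by
        unfold BIP.emb
        rw [if_neg hp, BIP.val_inf]
        exact ⟨fun y hy => Or.inr ⟨y, hy, rfl⟩, Or.inl rfl⟩
      have h3 : BL.lift (fun x : Y ⊕ P => x = Sum.inr p ∨ ∃ y ∈ A p, x = Sum.inl y)
          (BIP.emb A B q) := h1 h2
      unfold BIP.emb at h3
      by_cases hq : ∃ r, r < q
      · rw [if_pos hq, BIP.val_sup] at h3
        rcases h3 with ⟨y, hy, h4 | ⟨z, hz, h4⟩⟩ | h4 | ⟨z, hz, h4⟩
        · exact absurd h4 (by simp)
        · have e : y = z := Sum.inl_injective h4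
          rw [← e] at hz
          exact (hAB p q).2 ⟨y, hz, hy⟩
        · exact (Sum.inr_injective h4).symm.le
        · exact absurd h4 (by simp)
      · rw [if_neg hq, BIP.val_inf] at h3
        rcases h3.2 with h4 | ⟨z, hz, h4⟩
        · exact (Sum.inr_injective h4).symm.le
        · exact absurd h4 (by simp)
  · rcases h.eq_or_lt with h1 | h1
    · rw [h1]
    · have hq : ∃ r, r < q := ⟨p, h1⟩
      have hp : ¬ ∃ r, r < p := fun ⟨r, hr⟩ => hP r p q hr h1
      obtain ⟨y, hy, hy'⟩ := (hAB p q).1 h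
      unfold BIP.emb
      rw [if_neg hp, if_pos hq]
      have e1 : (A p).inf (fun y => BL.var (Sum.inl y : Y ⊕ P)) ≤ BL.var (Sum.inl y) :=
        Finset.inf_le (f := fun y => BL.var (Sum.inl y : Y ⊕ P)) hy
      have e2 : BL.var (Sum.inl y : Y ⊕ P) ≤ (B q).sup (fun y => BL.var (Sum.inl y : Y ⊕ P)) :=
        Finset.le_sup (f := fun y => BL.var (Sum.inl y : Y ⊕ P)) hy'
      exact (inf_le_left.trans e1).trans (e2.trans le_sup_left)

end H91FL
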