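import Pool.Agent.H91FL.Stubs

/-!
# The distributive version: monotone Boolean functions
-/

universe u v w

namespace H91FD

/-- monotone Boolean functions of variables in `X` -/
abbrev BL (X : Type u) : Type u := (X → Prop) →o Prop

def BL.var {X : Type u} (x : X) : BL X := ⟨fun v => v x, fun _ _ h => h x⟩

/-- substitution -/
def BL.lift {X : Type u} (f : X → BL X) : BoundedLatticeHom (BL X) (BL X) where
  toFun t := ⟨fun v => t (fun x => f x v), fun _ _ h => t.monotone (fun x => (f x).monotone h)⟩
  map_sup' _ _ := rfl
  map_inf' _ _ := rfl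
  map_top' := rfl
  map_bot' := rfl

theorem BL.lift_var {X : Type u} (f : X → BL X) (x : X) : BL.lift f (BL.var x) = f x := rfl

theorem BL.lift_mono {X : Type u} {f g : X → BL X} (h : ∀ x, f x ≤ g x) (t : BL X) :
    BL.lift f t ≤ BL.lift g t := fun v => t.monotone (fun x => h x v)

theorem BL.lift_id {X : Type u} (t : BL X) : BL.lift (BL.var (X := X)) t = t := rfl

inductive Supp {X : Type u} (S : Set X) : BL X → Prop
  | var {x} : x ∈ S → Supp S (BL.var x)
  | bot : Supp S ⊥
  | top : Supp S ⊤
  | sup {a b} : Supp S a → Supp S b → Supp S (a ⊔ b)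
  | inf {a b} : Supp S a → Supp S b → Supp S (a ⊓ b)

theorem Supp.mono {X : Type u} {S T : Set X} (h : S ⊆ T) {t : BL X} (ht : Supp S t) :
    Supp T t := by
  induction ht with
  | var hx => exact .var (h hx)
  | bot => exact .bot
  | top => exact .top
  | sup _ _ h1 h2 => exact .sup h1 h2
  | inf _ _ h1 h2 => exact .inf h1 h2

theorem Supp.lift_eq {X : Type u} {S : Set X}
    {f : X → BL X} (h : ∀ x ∈ S, f x = BL.var x) {t : BL X} (ht : Supp S t) :
    BL.lift f t = t := by
  induction ht with
  | var hx => rw [BL.lift_var]; exact h _ hx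
  | bot => exact map_bot _
  | top => exact map_top _
  | sup _ _ h1 h2 => rw [map_sup, h1, h2]
  | inf _ _ h1 h2 => rw [map_inf, h1, h2]

/-- substitution of supported elements in a supported element -/
theorem Supp.lift_supp {X : Type u} {S T : Set X}
    {f : X → BL X} (h : ∀ z, Supp S (f z)) {t : BL X} (ht : Supp T t) :
    Supp S (BL.lift f t) := by
  induction ht with
  | var hx => exact h _
  | bot => rw [map_bot]; exact .bot
  | top => rw [map_top]; exact .top
  | sup _ _ h1 h2 => rw [map_sup]; exact .sup h1 h2
  | inf _ _ h1 h2 => rw [map_inf]; exact .inf h1 h2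

open Classical in
noncomputable def low {X : Type u} (S : Set X) : BL X → BL X :=
  fun t => BL.lift (fun x => if x ∈ S then BL.var x else ⊥) t

open Classical in
noncomputable def upp {X : Type u} (S : Set X) : BL X → BL X :=
  fun t => BL.lift (fun x => if x ∈ S then BL.var x else ⊤) t

theorem low_le {X : Type u} (S : Set X) (t : BL X) : low S t ≤ t := by
  classical
  refine BL.lift_mono (g := BL.var) (fun x => ?_) t
  split_ifs
  · exact le_rfl
  · exact fun v h => False.elim h

theorem le_upp {X : Type u} (S : Set X) (t : BL X) : t ≤ upp S t := by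
  classical
  refine BL.lift_mono (f := BL.var) (fun x => ?_) t
  split_ifs
  · exact le_rfl
  · exact fun v _ => True.intro

theorem low_supp {X : Type u} (S : Set X) {T : Set X} {t : BL X} (ht : Supp T t) :
    Supp S (low S t) := by
  classical
  refine Supp.lift_supp (fun x => ?_) ht
  split_ifs with h
  · exact .var h
  · exact .bot

theorem upp_supp {X : Type u} (S : Set X) {T : Set X} {t : BL X} (ht : Supp T t) :
    Supp S (upp S t) := by
  classical
  refine Supp.lift_supp (fun x => ?_) ht
  split_ifs with h
  · exact .var h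
  · exact .top

theorem low_mono {X : Type u} (S : Set X) {a b : BL X} (h : a ≤ b) : low S a ≤ low S b :=
  OrderHomClass.mono (BL.lift _) h

theorem upp_mono {X : Type u} (S : Set X) {a b : BL X} (h : a ≤ b) : upp S a ≤ upp S b :=
  OrderHomClass.mono (BL.lift _) h

theorem low_eq {X : Type u} {S : Set X} {t : BL X} (h : Supp S t) : low S t = t := by
  classical
  exact Supp.lift_eq (fun x hx => by simp [hx]) h

theorem upp_eq {X : Type u} {S : Set X} {t : BL X} (h : Supp S t) : upp S t = t := by
  classical
  exact Supp.lift_eq (fun x hx => by simp [hx]) h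

theorem le_low {X : Type u} {S : Set X} {a t : BL X} (ha : Supp S a) (h : a ≤ t) :
    a ≤ low S t := by
  rw [← low_eq ha]; exact low_mono S h

theorem upp_le {X : Type u} {S : Set X} {a t : BL X} (ha : Supp S a) (h : t ≤ a) :
    upp S t ≤ a := by
  rw [← upp_eq ha]; exact upp_mono S h

end H91FD
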