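import Mathlib

/-!
# Posets embedding in free lattices (MP_65a0e0_al): definitions

`FL X` is the free lattice on `X`, `BL X` the free bounded lattice on `X`.
-/

universe u v w

namespace H91FL

/-- Lattice terms over `X`. -/
inductive FTerm (X : Type u) : Type u
  | var : X → FTerm X
  | sup : FTerm X → FTerm X → FTerm X
  | inf : FTerm X → FTerm X → FTerm X

/-- The least preorder on terms for which `sup` and `inf` are joins and meets. -/
inductive FLe {X : Type u} : FTerm X → FTerm X → Prop
  | refl (a) : FLe a a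
  | trans {a b c} : FLe a b → FLe b c → FLe a c
  | le_sup_left (a b) : FLe a (.sup a b)
  | le_sup_right (a b) : FLe b (.sup a b)
  | sup_le {a b c} : FLe a c → FLe b c → FLe (.sup a b) c
  | inf_le_left (a b) : FLe (.inf a b) a
  | inf_le_right (a b) : FLe (.inf a b) b
  | le_inf {a b c} : FLe a b → FLe a c → FLe a (.inf b c)

/-- Two terms are identified when each is below the other. -/
def fSetoid (X : Type u) : Setoid (FTerm X) where
  r a b := FLe a b ∧ FLe b a
  iseqv := ⟨fun a => ⟨.refl a, .refl a⟩, fun h => ⟨h.2, h.1⟩,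
    fun h h' => ⟨h.1.trans h'.1, h'.2.trans h.2⟩⟩

/-- The free lattice on `X`. -/
def FL (X : Type u) : Type u := Quotient (fSetoid X)

instance (X : Type u) : Lattice (FL X) where
  le := Quotient.lift₂ FLe (by
    intro a b a' b' h h'
    exact propext ⟨fun k => (h.2.trans k).trans h'.1, fun k => (h.1.trans k).trans h'.2⟩)
  le_refl := by rintro ⟨a⟩; exact FLe.refl a
  le_trans := by rintro ⟨a⟩ ⟨b⟩ ⟨c⟩ h k; exact FLe.trans h k
  le_antisymm := by rintro ⟨a⟩ ⟨b⟩ h k; exact Quotient.sound ⟨h, k⟩
  sup := Quotient.map₂ FTerm.sup (by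
    intro a a' h b b' h'
    exact ⟨.sup_le (h.1.trans (.le_sup_left _ _)) (h'.1.trans (.le_sup_right _ _)),
      .sup_le (h.2.trans (.le_sup_left _ _)) (h'.2.trans (.le_sup_right _ _))⟩)
  inf := Quotient.map₂ FTerm.inf (by
    intro a a' h b b' h'
    exact ⟨.le_inf ((FLe.inf_le_left _ _).trans h.1) ((FLe.inf_le_right _ _).trans h'.1),
      .le_inf ((FLe.inf_le_left _ _).trans h.2) ((FLe.inf_le_right _ _).trans h'.2)⟩)
  le_sup_left := by rintro ⟨a⟩ ⟨b⟩; exact FLe.le_sup_left a b
  le_sup_right := by rintro ⟨a⟩ ⟨b⟩; exact FLe.le_sup_right a b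
  sup_le := by rintro ⟨a⟩ ⟨b⟩ ⟨c⟩ h k; exact FLe.sup_le h k
  inf_le_left := by rintro ⟨a⟩ ⟨b⟩; exact FLe.inf_le_left a b
  inf_le_right := by rintro ⟨a⟩ ⟨b⟩; exact FLe.inf_le_right a b
  le_inf := by rintro ⟨a⟩ ⟨b⟩ ⟨c⟩ h k; exact FLe.le_inf h k

/-- The free generators. -/
def FL.var {X : Type u} (x : X) : FL X := Quotient.mk _ (.var x)

/-- Bounded lattice terms over `X`. -/
inductive BTerm (X : Type u) : Type u
  | var : X → BTerm X
  | bot : BTerm X
  | top : BTerm X
  | sup : BTerm X → BTerm X → BTerm X
  | inf : BTerm X → BTerm X → BTerm X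

inductive BLe {X : Type u} : BTerm X → BTerm X → Prop
  | refl (a) : BLe a a
  | trans {a b c} : BLe a b → BLe b c → BLe a c
  | bot_le (a) : BLe .bot a
  | le_top (a) : BLe a .top
  | le_sup_left (a b) : BLe a (.sup a b)
  | le_sup_right (a b) : BLe b (.sup a b)
  | sup_le {a b c} : BLe a c → BLe b c → BLe (.sup a b) c
  | inf_le_left (a b) : BLe (.inf a b) a
  | inf_le_right (a b) : BLe (.inf a b) b
  | le_inf {a b c} : BLe a b → BLe a c → BLe a (.inf b c)

def bSetoid (X : Type u) : Setoid (BTerm X) where
  r a b := BLe a b ∧ BLe b a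
  iseqv := ⟨fun a => ⟨.refl a, .refl a⟩, fun h => ⟨h.2, h.1⟩,
    fun h h' => ⟨h.1.trans h'.1, h'.2.trans h.2⟩⟩

/-- The free bounded lattice on `X`. -/
def BL (X : Type u) : Type u := Quotient (bSetoid X)

instance (X : Type u) : Lattice (BL X) where
  le := Quotient.lift₂ BLe (by
    intro a b a' b' h h'
    exact propext ⟨fun k => (h.2.trans k).trans h'.1, fun k => (h.1.trans k).trans h'.2⟩)
  le_refl := by rintro ⟨a⟩; exact BLe.refl a
  le_trans := by rintro ⟨a⟩ ⟨b⟩ ⟨c⟩ h k; exact BLe.trans h k
  le_antisymm := by rintro ⟨a⟩ ⟨b⟩ h k; exact Quotient.sound ⟨h, k⟩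
  sup := Quotient.map₂ BTerm.sup (by
    intro a a' h b b' h'
    exact ⟨.sup_le (h.1.trans (.le_sup_left _ _)) (h'.1.trans (.le_sup_right _ _)),
      .sup_le (h.2.trans (.le_sup_left _ _)) (h'.2.trans (.le_sup_right _ _))⟩)
  inf := Quotient.map₂ BTerm.inf (by
    intro a a' h b b' h'
    exact ⟨.le_inf ((BLe.inf_le_left _ _).trans h.1) ((BLe.inf_le_right _ _).trans h'.1),
      .le_inf ((BLe.inf_le_left _ _).trans h.2) ((BLe.inf_le_right _ _).trans h'.2)⟩)
  le_sup_left := by rintro ⟨a⟩ ⟨b⟩; exact BLe.le_sup_left a b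
  le_sup_right := by rintro ⟨a⟩ ⟨b⟩; exact BLe.le_sup_right a b
  sup_le := by rintro ⟨a⟩ ⟨b⟩ ⟨c⟩ h k; exact BLe.sup_le h k
  inf_le_left := by rintro ⟨a⟩ ⟨b⟩; exact BLe.inf_le_left a b
  inf_le_right := by rintro ⟨a⟩ ⟨b⟩; exact BLe.inf_le_right a b
  le_inf := by rintro ⟨a⟩ ⟨b⟩ ⟨c⟩ h k; exact BLe.le_inf h k

instance (X : Type u) : BoundedOrder (BL X) where
  top := Quotient.mk _ .top
  bot := Quotient.mk _ .bot
  le_top := by rintro ⟨a⟩; exact BLe.le_top a
  bot_le := by rintro ⟨a⟩; exact BLe.bot_le a

def BL.var {X : Type u} (x : X) : BL X := Quotient.mk _ (.var x)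

/-- `P` embeds into a free lattice. -/
def EmbedsFree (P : Type u) [PartialOrder P] : Prop :=
  ∃ X : Type u, Nonempty (P ↪o FL X)

/-- `P` embeds into a free bounded lattice. -/
def EmbedsFreeB (P : Type u) [PartialOrder P] : Prop :=
  ∃ X : Type u, Nonempty (P ↪o BL X)

/-- A finite representation of the order relation: the relation `≤` is the union of a
point-finite family of rectangles. -/
def FinRep (P : Type u) [PartialOrder P] : Prop :=
  ∃ (Y : Type u) (A B : P → Finset Y), ∀ p q : P, p ≤ q ↔ ∃ y, y ∈ A p ∧ y ∈ B q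

/-- evaluation of free-lattice terms -/
def FTerm.eval {X : Type u} {L : Type v} [Lattice L] (f : X → L) : FTerm X → L
  | .var x => f x
  | .sup a b => a.eval f ⊔ b.eval f
  | .inf a b => a.eval f ⊓ b.eval f

theorem FTerm.eval_mono {X : Type u} {L : Type v} [Lattice L] (f : X → L) {a b : FTerm X}
    (h : FLe a b) : a.eval f ≤ b.eval f := by
  induction h with
  | refl a => exact le_rfl
  | trans _ _ h1 h2 => exact h1.trans h2
  | le_sup_left a b => exact le_sup_left
  | le_sup_right a b => exact le_sup_right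
  | sup_le _ _ h1 h2 => exact sup_le h1 h2
  | inf_le_left a b => exact inf_le_left
  | inf_le_right a b => exact inf_le_right
  | le_inf _ _ h1 h2 => exact le_inf h1 h2

/-- The universal property of the free lattice: the homomorphism extending `f`. -/
def FL.lift {X : Type u} {L : Type v} [Lattice L] (f : X → L) : LatticeHom (FL X) L where
  toFun := Quotient.lift (FTerm.eval f) (fun _ _ h =>
    le_antisymm (FTerm.eval_mono f h.1) (FTerm.eval_mono f h.2))
  map_sup' := by rintro ⟨a⟩ ⟨b⟩; rfl
  map_inf' := by rintro ⟨a⟩ ⟨b⟩; rfl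

@[simp] theorem FL.lift_var {X : Type u} {L : Type v} [Lattice L] (f : X → L) (x : X) :
    FL.lift f (FL.var x) = f x := rfl

theorem FL.induction {X : Type u} {motive : FL X → Prop} (hv : ∀ x, motive (FL.var x))
    (hs : ∀ a b, motive a → motive b → motive (a ⊔ b))
    (hi : ∀ a b, motive a → motive b → motive (a ⊓ b)) (t : FL X) : motive t := by
  obtain ⟨t⟩ := t
  induction t with
  | var x => exact hv x
  | sup a b ha hb => exact hs _ _ ha hb
  | inf a b ha hb => exact hi _ _ ha hb

def BTerm.eval {X : Type u} {L : Type v} [Lattice L] [BoundedOrder L] (f : X → L) : BTerm X → L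
  | .var x => f x
  | .bot => ⊥
  | .top => ⊤
  | .sup a b => a.eval f ⊔ b.eval f
  | .inf a b => a.eval f ⊓ b.eval f

theorem BTerm.eval_mono {X : Type u} {L : Type v} [Lattice L] [BoundedOrder L] (f : X → L)
    {a b : BTerm X} (h : BLe a b) : a.eval f ≤ b.eval f := by
  induction h with
  | refl a => exact le_rfl
  | trans _ _ h1 h2 => exact h1.trans h2
  | bot_le a => exact bot_le
  | le_top a => exact le_top
  | le_sup_left a b => exact le_sup_left
  | le_sup_right a b => exact le_sup_right
  | sup_le _ _ h1 h2 => exact sup_le h1 h2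
  | inf_le_left a b => exact inf_le_left
  | inf_le_right a b => exact inf_le_right
  | le_inf _ _ h1 h2 => exact le_inf h1 h2

/-- The bounded homomorphism extending `f`. -/
def BL.lift {X : Type u} {L : Type v} [Lattice L] [BoundedOrder L] (f : X → L) :
    BoundedLatticeHom (BL X) L where
  toFun := Quotient.lift (BTerm.eval f) (fun _ _ h =>
    le_antisymm (BTerm.eval_mono f h.1) (BTerm.eval_mono f h.2))
  map_sup' := by rintro ⟨a⟩ ⟨b⟩; rfl
  map_inf' := by rintro ⟨a⟩ ⟨b⟩; rfl
  map_top' := rfl
  map_bot' := rfl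

@[simp] theorem BL.lift_var {X : Type u} {L : Type v} [Lattice L] [BoundedOrder L]
    (f : X → L) (x : X) : BL.lift f (BL.var x) = f x := rfl

theorem BL.induction {X : Type u} {motive : BL X → Prop} (hv : ∀ x, motive (BL.var x))
    (hb : motive ⊥) (ht : motive ⊤)
    (hs : ∀ a b, motive a → motive b → motive (a ⊔ b))
    (hi : ∀ a b, motive a → motive b → motive (a ⊓ b)) (t : BL X) : motive t := by
  obtain ⟨t⟩ := t
  induction t with
  | var x => exact hv x
  | bot => exact hb
  | top => exact ht
  | sup a b ha hb => exact hs _ _ ha hb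
  | inf a b ha hb => exact hi _ _ ha hb

theorem BL.lift_mono {X : Type u} {L : Type v} [Lattice L] [BoundedOrder L] {f g : X → L}
    (h : ∀ x, f x ≤ g x) (t : BL X) : BL.lift f t ≤ BL.lift g t := by
  induction t using BL.induction with
  | hv x => exact h x
  | hb => simp
  | ht => simp
  | hs a b ha hb => simpa using sup_le_sup ha hb
  | hi a b ha hb => simpa using inf_le_inf ha hb

theorem BL.lift_id {X : Type u} (t : BL X) : BL.lift (BL.var (X := X)) t = t := by
  induction t using BL.induction with
  | hv x => rfl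
  | hb => simp
  | ht => simp
  | hs a b ha hb => simp [ha, hb]
  | hi a b ha hb => simp [ha, hb]

/-- `t` is supported on `S`: it lies in the bounded sublattice generated by `S`. -/
inductive Supp {X : Type u} (S : Set X) : BL X → Prop
  | var {x} : x ∈ S → Supp S (BL.var x)
  | bot : Supp S ⊥
  | top : Supp S ⊤
  | sup {a b} : Supp S a → Supp S b → Supp S (a ⊔ b)
  | inf {a b} : Supp S a → Supp S b → Supp S (a ⊓ b)

theorem Supp.mono {X : Type u} {S T : Set X} (h : S ⊆ T) {t : BL X} (ht : Supp S t) :
    Supp T t := by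
  induction ht with
  | var hx => exact .var (h hx)
  | bot => exact .bot
  | top => exact .top
  | sup _ _ h1 h2 => exact .sup h1 h2
  | inf _ _ h1 h2 => exact .inf h1 h2

/-- A homomorphism is determined on elements supported on `S` by the values on `S`. -/
theorem Supp.lift_congr {X : Type u} {L : Type v} [Lattice L] [BoundedOrder L] {S : Set X}
    {f g : X → L} (h : ∀ x ∈ S, f x = g x) {t : BL X} (ht : Supp S t) :
    BL.lift f t = BL.lift g t := by
  induction ht with
  | var hx => simpa using h _ hx
  | bot => simp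
  | top => simp
  | sup _ _ h1 h2 => simp [h1, h2]
  | inf _ _ h1 h2 => simp [h1, h2]

theorem Supp.lift_eq {X : Type u} {S : Set X}
    {f : X → BL X} (h : ∀ x ∈ S, f x = BL.var x) {t : BL X} (ht : Supp S t) :
    BL.lift f t = t := by
  rw [Supp.lift_congr h ht, BL.lift_id]

/-- lifting to elements supported on `S` -/
theorem Supp.lift_supp {X : Type u} {Z : Type w} {S : Set X}
    {f : Z → BL X} (h : ∀ z, Supp S (f z)) (t : BL Z) : Supp S (BL.lift f t) := by
  induction t using BL.induction with
  | hv x => exact h x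
  | hb => simpa using Supp.bot
  | ht => simpa using Supp.top
  | hs a b ha hb => simpa using Supp.sup ha hb
  | hi a b ha hb => simpa using Supp.inf ha hb

open Classical in
/-- lower projection onto `S`: the other generators become `⊥`. -/
noncomputable def low {X : Type u} (S : Set X) : BL X → BL X :=
  fun t => BL.lift (fun x => if x ∈ S then BL.var x else ⊥) t

open Classical in
/-- upper projection onto `S`: the other generators become `⊤`. -/
noncomputable def upp {X : Type u} (S : Set X) : BL X → BL X :=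
  fun t => BL.lift (fun x => if x ∈ S then BL.var x else ⊤) t

theorem low_le {X : Type u} (S : Set X) (t : BL X) : low S t ≤ t := by
  classical
  conv_rhs => rw [← BL.lift_id t]
  exact BL.lift_mono (fun x => by split_ifs <;> simp) t

theorem le_upp {X : Type u} (S : Set X) (t : BL X) : t ≤ upp S t := by
  classical
  conv_lhs => rw [← BL.lift_id t]
  exact BL.lift_mono (fun x => by split_ifs <;> simp) t

theorem low_supp {X : Type u} (S : Set X) (t : BL X) : Supp S (low S t) := by
  classical
  apply Supp.lift_supp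
  intro x
  split_ifs with h
  · exact .var h
  · exact .bot

theorem upp_supp {X : Type u} (S : Set X) (t : BL X) : Supp S (upp S t) := by
  classical
  apply Supp.lift_supp
  intro x
  split_ifs with h
  · exact .var h
  · exact .top

theorem low_mono {X : Type u} (S : Set X) {a b : BL X} (h : a ≤ b) : low S a ≤ low S b :=
  OrderHomClass.mono (BL.lift _) h

theorem upp_mono {X : Type u} (S : Set X) {a b : BL X} (h : a ≤ b) : upp S a ≤ upp S b :=
  OrderHomClass.mono (BL.lift _) h

theorem low_eq {X : Type u} {S : Set X} {t : BL X} (h : Supp S t) : low S t = t := by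
  classical
  exact Supp.lift_eq (fun x hx => by simp [hx]) h

theorem upp_eq {X : Type u} {S : Set X} {t : BL X} (h : Supp S t) : upp S t = t := by
  classical
  exact Supp.lift_eq (fun x hx => by simp [hx]) h

/-- projections are largest/smallest approximations -/
theorem le_low {X : Type u} {S : Set X} {a t : BL X} (ha : Supp S a) (h : a ≤ t) :
    a ≤ low S t := by
  rw [← low_eq ha]; exact low_mono S h

theorem upp_le {X : Type u} {S : Set X} {a t : BL X} (ha : Supp S a) (h : t ≤ a) :
    upp S t ≤ a := by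
  rw [← upp_eq ha]; exact upp_mono S h

/-- projecting an element supported on `T` onto `S` gives support `S ∩ T`. -/
theorem low_supp_inter {X : Type u} (S : Set X) {T : Set X} {t : BL X} (h : Supp T t) :
    Supp (S ∩ T) (low S t) := by
  classical
  induction h with
  | var hx =>
    simp only [low, BL.lift_var]
    split_ifs with h
    · exact .var ⟨h, hx⟩
    · exact .bot
  | bot => simpa [low] using Supp.bot
  | top => simpa [low] using Supp.top
  | sup _ _ h1 h2 => simpa [low] using Supp.sup h1 h2
  | inf _ _ h1 h2 => simpa [low] using Supp.inf h1 h2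

theorem upp_supp_inter {X : Type u} (S : Set X) {T : Set X} {t : BL X} (h : Supp T t) :
    Supp (S ∩ T) (upp S t) := by
  classical
  induction h with
  | var hx =>
    simp only [upp, BL.lift_var]
    split_ifs with h
    · exact .var ⟨h, hx⟩
    · exact .top
  | bot => simpa [upp] using Supp.bot
  | top => simpa [upp] using Supp.top
  | sup _ _ h1 h2 => simpa [upp] using Supp.sup h1 h2
  | inf _ _ h1 h2 => simpa [upp] using Supp.inf h1 h2

/-- every element has a finite support -/
theorem exists_finset_supp {X : Type u} (t : BL X) : ∃ F : Finset X, Supp (F : Set X) t := by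
  classical
  induction t using BL.induction with
  | hv x => exact ⟨{x}, .var (by simp)⟩
  | hb => exact ⟨∅, .bot⟩
  | ht => exact ⟨∅, .top⟩
  | hs a b ha hb =>
    obtain ⟨F, hF⟩ := ha; obtain ⟨G, hG⟩ := hb
    exact ⟨F ∪ G, .sup (hF.mono (by simp)) (hG.mono (by simp))⟩
  | hi a b ha hb =>
    obtain ⟨F, hF⟩ := ha; obtain ⟨G, hG⟩ := hb
    exact ⟨F ∪ G, .inf (hF.mono (by simp)) (hG.mono (by simp))⟩

end H91FL
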