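import Pool.Agent.H91FL.HD
import Pool.Agent.H91FL.Asm

universe u v w

open Cardinal

namespace H91FL

/-- `P` is represented by finite families of finite sets (monotone disjunctive normal forms,
ordered by implication). -/
def DnfRep (P : Type u) [PartialOrder P] : Prop :=
  ∃ (X : Type u) (D : P → Finset (Finset X)), ∀ p q : P,
    p ≤ q ↔ ∀ F ∈ D p, ∃ G ∈ D q, G ⊆ F

namespace Dnf

open Classical

theorem exists_dnf {X : Type u} {S : Set X} {t : H91FD.BL X} (h : H91FD.Supp S t) :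
    ∃ D : Finset (Finset X), ∀ v : X → Prop, t v ↔ ∃ F ∈ D, ∀ x ∈ F, v x := by
  induction h with
  | @var x hx => exact ⟨{{x}}, fun v => by simp [H91FD.BL.var]⟩
  | bot => exact ⟨∅, fun v => by simpa using (show ¬ (⊥ : H91FD.BL X) v from id)⟩
  | top => exact ⟨{∅}, fun v => by simpa using (show (⊤ : H91FD.BL X) v from trivial)⟩
  | @sup a b _ _ h1 h2 =>
    obtain ⟨D1, h1⟩ := h1
    obtain ⟨D2, h2⟩ := h2
    refine ⟨D1 ∪ D2, fun v => ?_⟩
    change (a v ∨ b v) ↔ _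
    rw [h1, h2]
    constructor
    · rintro (⟨F, hF, h⟩ | ⟨F, hF, h⟩)
      · exact ⟨F, Finset.mem_union_left _ hF, h⟩
      · exact ⟨F, Finset.mem_union_right _ hF, h⟩
    · rintro ⟨F, hF, h⟩
      rcases Finset.mem_union.1 hF with hF | hF
      · exact .inl ⟨F, hF, h⟩
      · exact .inr ⟨F, hF, h⟩
  | @inf a b _ _ h1 h2 =>
    obtain ⟨D1, h1⟩ := h1
    obtain ⟨D2, h2⟩ := h2
    refine ⟨(D1 ×ˢ D2).image (fun z => z.1 ∪ z.2), fun v => ?_⟩
    change (a v ∧ b v) ↔ _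
    rw [h1, h2]
    constructor
    · rintro ⟨⟨F, hF, h⟩, ⟨G, hG, h'⟩⟩
      refine ⟨F ∪ G, Finset.mem_image.2 ⟨(F, G), Finset.mem_product.2 ⟨hF, hG⟩, rfl⟩, ?_⟩
      intro x hx
      rcases Finset.mem_union.1 hx with hx | hx
      · exact h x hx
      · exact h' x hx
    · rintro ⟨K, hK, h⟩
      obtain ⟨⟨F, G⟩, hFG, rfl⟩ := Finset.mem_image.1 hK
      rw [Finset.mem_product] at hFG
      exact ⟨⟨F, hFG.1, fun x hx => h x (Finset.mem_union_left _ hx)⟩,
        ⟨G, hFG.2, fun x hx => h x (Finset.mem_union_right _ hx)⟩⟩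

theorem le_iff {X : Type u} {s t : H91FD.BL X} {D D' : Finset (Finset X)}
    (h : ∀ v : X → Prop, s v ↔ ∃ F ∈ D, ∀ x ∈ F, v x)
    (h' : ∀ v : X → Prop, t v ↔ ∃ F ∈ D', ∀ x ∈ F, v x) :
    s ≤ t ↔ ∀ F ∈ D, ∃ G ∈ D', G ⊆ F := by
  constructor
  · intro hst F hF
    have h1 : s (fun x => x ∈ F) := (h _).2 ⟨F, hF, fun x hx => hx⟩
    obtain ⟨G, hG, h2⟩ := (h' _).1 (hst _ h1)
    exact ⟨G, hG, fun x hx => h2 x hx⟩
  · intro hD v hv
    obtain ⟨F, hF, h1⟩ := (h v).1 hv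
    obtain ⟨G, hG, h2⟩ := hD F hF
    exact (h' v).2 ⟨G, hG, fun x hx => h1 x (h2 hx)⟩

theorem of_rank {P E : Type u} [PartialOrder P] {R : E → E → Prop}
    (hR : RankData E R) (j : P → E) (hj : ∀ p q, p ≤ q ↔ R (j p) (j q)) : DnfRep P := by
  obtain ⟨f, g, h1, h2, h3⟩ := H91FD.t_HD E R hR
  choose S hS using h3
  choose D hD using fun x => exists_dnf (hS x)
  refine ⟨E × Bool, fun p => D (j p), fun p q => ?_⟩
  rw [← le_iff (hD (j p)) (hD (j q)), hj p q, ← h2]
  constructor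
  · intro h
    exact h.trans (h1 _)
  · intro h
    exact h.trans ((h2 _ _).2 ((hj q q).1 le_rfl))

/-- the preorder of monotone disjunctive normal forms -/
structure DN (X : Type u) : Type u where
  fam : Finset (Finset X)

instance (X : Type u) : Preorder (DN X) where
  le D D' := ∀ F ∈ D.fam, ∃ G ∈ D'.fam, G ⊆ F
  le_refl D F hF := ⟨F, hF, Finset.Subset.refl F⟩
  le_trans D D' D'' h h' F hF := by
    obtain ⟨G, hG, h1⟩ := h F hF
    obtain ⟨K, hK, h2⟩ := h' G hG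
    exact ⟨K, hK, h2.trans h1⟩

theorem fn (X : Type u) : FNProp (Antisymmetrization (DN X) (· ≤ ·)) := by
  let rep : Antisymmetrization (DN X) (· ≤ ·) → Finset (Finset X) :=
    fun a => (ofAntisymmetrization (α := DN X) (· ≤ ·) a).fam
  let sp : Finset (Finset X) → Finset X := fun D => D.sup id
  let mk : Finset (Finset X) → Antisymmetrization (DN X) (· ≤ ·) :=
    fun D => toAntisymmetrization (α := DN X) (· ≤ ·) ⟨D⟩
  refine ⟨fun a => ((sp (rep a)).powerset.powerset).image mk, fun a b hab => ?_⟩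
  have ha : mk (rep a) = a := toAntisymmetrization_ofAntisymmetrization (α := DN X) (· ≤ ·) a
  have hb : mk (rep b) = b := toAntisymmetrization_ofAntisymmetrization (α := DN X) (· ≤ ·) b
  have hle : ∀ F ∈ rep a, ∃ G ∈ rep b, G ⊆ F := by
    have h : mk (rep a) ≤ mk (rep b) := by rw [ha, hb]; exact hab
    exact h
  let U : Finset (Finset X) := (rep a).image (fun F => F ∩ sp (rep b))
  have hsub : ∀ D : Finset (Finset X), ∀ F ∈ D, F ⊆ sp D := fun D F hF =>
    Finset.le_sup (f := id) hF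
  have h1 : mk (rep a) ≤ mk U := by
    change ∀ F ∈ rep a, ∃ G ∈ U, G ⊆ F
    intro F hF
    exact ⟨F ∩ sp (rep b), Finset.mem_image_of_mem _ hF, Finset.inter_subset_left⟩
  have h2 : mk U ≤ mk (rep b) := by
    change ∀ F ∈ U, ∃ G ∈ rep b, G ⊆ F
    intro K hK
    obtain ⟨F, hF, rfl⟩ := Finset.mem_image.1 hK
    obtain ⟨G, hG, h⟩ := hle F hF
    exact ⟨G, hG, Finset.subset_inter h (hsub _ _ hG)⟩
  refine ⟨mk U, Finset.mem_image_of_mem _ ?_, Finset.mem_image_of_mem _ ?_, ha ▸ h1, hb ▸ h2⟩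
  · rw [Finset.mem_powerset]
    intro K hK
    obtain ⟨F, hF, rfl⟩ := Finset.mem_image.1 hK
    exact Finset.mem_powerset.2 (Finset.inter_subset_left.trans (hsub _ _ hF))
  · rw [Finset.mem_powerset]
    intro K hK
    obtain ⟨F, hF, rfl⟩ := Finset.mem_image.1 hK
    exact Finset.mem_powerset.2 Finset.inter_subset_right

end Dnf

/-- **Characterisation.** A poset embeds into a free lattice iff it is represented by finite
families of finite sets. -/
theorem embeds_iff_dnf (P : Type u) [PartialOrder P] : EmbedsFree P ↔ DnfRep P := by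
  constructor
  · intro h
    obtain ⟨Q, iQ, hQ, ⟨e⟩⟩ := (embeds_iff_FN P).1 h
    exact Dnf.of_rank (t_FNRANK Q hQ) e (fun p q => e.le_iff_le.symm)
  · rintro ⟨X, D, hD⟩
    refine (embeds_iff_FN P).2 ⟨Antisymmetrization (Dnf.DN X) (· ≤ ·), inferInstance, Dnf.fn X,
      ⟨OrderEmbedding.ofMapLEIff
        (fun p => toAntisymmetrization (α := Dnf.DN X) (· ≤ ·) ⟨D p⟩) fun p q => ?_⟩⟩
    rw [hD p q]
    rfl

end H91FL
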