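import Pool.Agent.H91FL.DDefs

universe u v w

namespace H91FD
namespace HH

open Classical

theorem true_le_imp {b : Bool} (h : true ≤ b) : b = true := by
  cases b
  · exact absurd h (by decide)
  · rfl

theorem le_false_imp {b : Bool} (h : b ≤ false) : b = false := by
  cases b
  · rfl
  · exact absurd h (by decide)

structure Data (E : Type u) (R : E → E → Prop) (W : Type u) [LinearOrder W] where
  rk : E → W
  idx : E → ℕ
  Lo : E → Finset E
  Up : E → Finset E
  trans : ∀ x y z, R x y → R y z → R x z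
  inj : ∀ x y, rk x = rk y → idx x = idx y → x = y
  lo_lt : ∀ x, ∀ z ∈ Lo x, rk z < rk x
  lo_R : ∀ x, ∀ z ∈ Lo x, ∀ y, R y z → R y x
  up_lt : ∀ x, ∀ z ∈ Up x, rk z < rk x
  up_R : ∀ x, ∀ z ∈ Up x, ∀ y, R z y → R x y
  lo_ex : ∀ x y, rk y < rk x → R y x → ∃ z ∈ Lo x, R y z
  up_ex : ∀ x y, rk y < rk x → R x y → ∃ z ∈ Up x, R z y
  mid : ∀ x, ∀ z ∈ Lo x, ∀ z' ∈ Up x, z = z' ∨ R z z'

variable {E : Type u} {R : E → E → Prop} {W : Type u} [LinearOrder W] (d : Data E R W)

/-- the position of a symbol `(x, s)` inside its level -/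
def pos (x : E × Bool) : ℕ := 2 * d.idx x.1 + (if x.2 then 1 else 0)

theorem pos_inj {x y : E × Bool} (h1 : d.rk x.1 = d.rk y.1) (h : pos d x = pos d y) : x = y := by
  obtain ⟨x, s⟩ := x
  obtain ⟨y, t⟩ := y
  simp only [pos] at h h1
  have h2 : d.idx x = d.idx y := by
    split_ifs at h <;> omega
  have h3 : x = y := d.inj _ _ h1 h2
  subst h3
  cases s <;> cases t <;> simp_all

/-- the well-founded order in which the symbols are treated -/
def lt (x y : E × Bool) : Prop :=
  Prod.Lex (· < ·) (· < ·) (d.rk x.1, pos d x) (d.rk y.1, pos d y)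

theorem lt_wf [WellFoundedLT W] : WellFounded (lt d) :=
  InvImage.wf (fun x : E × Bool => (d.rk x.1, pos d x))
    (WellFounded.prod_lex wellFounded_lt wellFounded_lt)

theorem lt_iff (x y : E × Bool) : lt d x y ↔
    d.rk x.1 < d.rk y.1 ∨ (d.rk x.1 = d.rk y.1 ∧ pos d x < pos d y) := by
  unfold lt
  rw [Prod.lex_def]

theorem lt_trans' {x y z : E × Bool} (h : lt d x y) (h' : lt d y z) : lt d x z := by
  rw [lt_iff] at *
  rcases h with h | ⟨h, k⟩ <;> rcases h' with h' | ⟨h', k'⟩
  · exact .inl (h.trans h')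
  · exact .inl (h'▸ h)
  · exact .inl (h ▸ h')
  · exact .inr ⟨h.trans h', k.trans k'⟩

theorem lt_total (x y : E × Bool) : lt d x y ∨ x = y ∨ lt d y x := by
  simp only [lt_iff]
  rcases lt_trichotomy (d.rk x.1) (d.rk y.1) with h | h | h
  · exact .inl (.inl h)
  · rcases lt_trichotomy (pos d x) (pos d y) with k | k | k
    · exact .inl (.inr ⟨h, k⟩)
    · exact .inr (.inl (pos_inj d h k))
    · exact .inr (.inr (.inr ⟨h.symm, k⟩))
  · exact .inr (.inr (.inl h))

/-- the preorder on symbols -/
def le (R : E → E → Prop) (x y : E × Bool) : Prop := R x.1 y.1 ∨ (x.1 = y.1 ∧ x.2 ≤ y.2)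

theorem le_trans' (d : Data E R W) {x y z : E × Bool} (h : le R x y) (h' : le R y z) : le R x z := by
  rcases h with h | ⟨h, k⟩ <;> rcases h' with h' | ⟨h', k'⟩
  · exact .inl (d.trans _ _ _ h h')
  · exact .inl (h' ▸ h)
  · exact .inl (h.symm ▸ h')
  · exact .inr ⟨h.trans h', k.trans k'⟩

theorem finite_T (x : E × Bool) :
    {y : E × Bool | d.rk y.1 = d.rk x.1 ∧ pos d y < pos d x}.Finite := by
  apply Set.Finite.of_injOn (f := fun y => pos d y) (t := Set.Iio (pos d x))
  · intro y hy; exact hy.2
  · intro y hy z hz h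
    exact pos_inj d (hy.1.trans hz.1.symm) h
  · exact Set.finite_Iio _

/-- symbols of the same level treated earlier -/
noncomputable def T (x : E × Bool) : Finset (E × Bool) := (finite_T d x).toFinset

theorem mem_T {x y : E × Bool} : y ∈ T d x ↔ d.rk y.1 = d.rk x.1 ∧ pos d y < pos d x := by
  simp [T]

theorem T_lt {x y : E × Bool} (h : y ∈ T d x) : lt d y x := by
  rw [lt_iff]; exact .inr ((mem_T d).1 h)

/-- generators of smaller rank -/
def base (x : E × Bool) : Set (E × Bool) := {y | d.rk y.1 < d.rk x.1}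

noncomputable def down (x : E × Bool) : Finset (E × Bool) := (T d x).filter (fun z => le R z x)
noncomputable def up (x : E × Bool) : Finset (E × Bool) := (T d x).filter (fun w => le R x w)

noncomputable def emf (f : E × Bool → BL (E × Bool)) (x : E × Bool) : BL (E × Bool) :=
  ((d.Lo x.1).sup fun z => f (z, false)) ⊓ (up d x).inf fun w => low (base d x) (f w)
noncomputable def epf (f : E × Bool → BL (E × Bool)) (x : E × Bool) : BL (E × Bool) :=
  ((d.Up x.1).inf fun z => f (z, true)) ⊔ (down d x).sup fun w => upp (base d x) (f w)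

noncomputable def stp (f : E × Bool → BL (E × Bool)) (x : E × Bool) : BL (E × Bool) :=
  (BL.var x ⊔ emf d f x ⊔ (down d x).sup f) ⊓ (epf d f x ⊓ (up d x).inf f)

theorem stp_congr {f g : E × Bool → BL (E × Bool)} (x : E × Bool)
    (h : ∀ y, lt d y x → f y = g y) : stp d f x = stp d g x := by
  have hT : ∀ y ∈ T d x, f y = g y := fun y hy => h y (T_lt d hy)
  have hu : ∀ y ∈ up d x, f y = g y := fun y hy => hT y (Finset.mem_filter.1 hy).1
  have hd : ∀ y ∈ down d x, f y = g y := fun y hy => hT y (Finset.mem_filter.1 hy).1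
  have hl : ∀ z ∈ d.Lo x.1, f (z, false) = g (z, false) :=
    fun z hz => h _ ((lt_iff d _ _).2 (.inl (d.lo_lt _ _ hz)))
  have hp : ∀ z ∈ d.Up x.1, f (z, true) = g (z, true) :=
    fun z hz => h _ ((lt_iff d _ _).2 (.inl (d.up_lt _ _ hz)))
  unfold stp emf epf
  rw [Finset.sup_congr rfl hl, Finset.inf_congr rfl hp, Finset.sup_congr rfl hd,
    Finset.inf_congr rfl hu,
    Finset.inf_congr (s₁ := up d x) rfl (fun y hy => by rw [hu y hy] :
      ∀ y ∈ up d x, low (base d x) (f y) = low (base d x) (g y)),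
    Finset.sup_congr (s₁ := down d x) rfl (fun y hy => by rw [hd y hy] :
      ∀ y ∈ down d x, upp (base d x) (f y) = upp (base d x) (g y))]

variable [WellFoundedLT W]

noncomputable def F : E × Bool → BL (E × Bool) :=
  (lt_wf d).fix (fun x f => stp d (fun y => if h : lt d y x then f y h else ⊥) x)

theorem F_eq (x : E × Bool) : F d x = stp d (F d) x := by
  conv_lhs => rw [F, WellFounded.fix_eq]
  apply stp_congr
  intro y hy
  simp only [hy, dite_true]
  rfl

/-- generators treated up to `x` -/
def below (x : E × Bool) : Set (E × Bool) := {y | y = x ∨ lt d y x}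

theorem supp_sup {S : Set (E × Bool)} {ι : Type*} (s : Finset ι) (f : ι → BL (E × Bool))
    (h : ∀ i ∈ s, Supp S (f i)) : Supp S (s.sup f) := by
  induction s using Finset.cons_induction with
  | empty => simpa using Supp.bot
  | cons a s ha ih =>
    rw [Finset.sup_cons]
    exact .sup (h a (by simp)) (ih (fun i hi => h i (by simp [hi])))

theorem supp_inf {S : Set (E × Bool)} {ι : Type*} (s : Finset ι) (f : ι → BL (E × Bool))
    (h : ∀ i ∈ s, Supp S (f i)) : Supp S (s.inf f) := by
  induction s using Finset.cons_induction with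
  | empty => simpa using Supp.top
  | cons a s ha ih =>
    rw [Finset.inf_cons]
    exact .inf (h a (by simp)) (ih (fun i hi => h i (by simp [hi])))

theorem below_mono {x y : E × Bool} (h : lt d y x) : below d y ⊆ below d x := by
  rintro z (rfl | hz)
  · exact .inr h
  · exact .inr (lt_trans' d hz h)

theorem base_sub (x : E × Bool) : base d x ⊆ below d x :=
  fun y hy => .inr ((lt_iff d _ _).2 (.inl hy))

theorem F_supp (x : E × Bool) : Supp (below d x) (F d x) := by
  induction x using (lt_wf d).induction with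
  | _ x ih =>
  have h1 : ∀ y, lt d y x → Supp (below d x) (F d y) := fun y hy => (ih y hy).mono (below_mono d hy)
  rw [F_eq]
  unfold stp emf epf
  refine .inf (.sup (.sup (.var (.inl rfl)) (.inf (supp_sup _ _ ?_) (supp_inf _ _ ?_)))
    (supp_sup _ _ ?_)) (.inf (.sup (supp_inf _ _ ?_) (supp_sup _ _ ?_)) (supp_inf _ _ ?_))
  · intro z hz; exact h1 _ ((lt_iff d _ _).2 (.inl (d.lo_lt _ _ hz)))
  · intro z hz; exact (low_supp _ (h1 _ (T_lt d (Finset.mem_filter.1 hz).1))).mono (base_sub d x)
  · intro z hz; exact h1 _ (T_lt d (Finset.mem_filter.1 hz).1)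
  · intro z hz; exact h1 _ ((lt_iff d _ _).2 (.inl (d.up_lt _ _ hz)))
  · intro z hz; exact (upp_supp _ (h1 _ (T_lt d (Finset.mem_filter.1 hz).1))).mono (base_sub d x)
  · intro z hz; exact h1 _ (T_lt d (Finset.mem_filter.1 hz).1)

theorem F_supp_base {x y : E × Bool} (h : d.rk y.1 < d.rk x.1) : Supp (base d x) (F d y) := by
  refine (F_supp d y).mono ?_
  rintro z (rfl | hz)
  · exact h
  · rw [lt_iff] at hz
    rcases hz with hz | hz
    · exact hz.trans h
    · exact lt_of_eq_of_lt hz.1 h

/-- admissibility of a symbol on the left (`+`) or right (`-`) at level `ρ` -/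
def AdmL (ρ : W) (x : E × Bool) : Prop := d.rk x.1 = ρ ∨ (d.rk x.1 < ρ ∧ x.2 = true)
def AdmR (ρ : W) (x : E × Bool) : Prop := d.rk x.1 = ρ ∨ (d.rk x.1 < ρ ∧ x.2 = false)

theorem F_le_lower (x : E × Bool) : F d x ≤ BL.var x ⊔ emf d (F d) x ⊔ (down d x).sup (F d) := by
  rw [F_eq]; exact inf_le_left
theorem F_le_ep (x : E × Bool) : F d x ≤ epf d (F d) x := by
  rw [F_eq]; exact inf_le_right.trans inf_le_left
theorem F_le_up (x : E × Bool) : F d x ≤ (up d x).inf (F d) := by
  rw [F_eq]; exact inf_le_right.trans inf_le_right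


/-- monotonicity on admissible pairs, by induction on the later of the two symbols -/
theorem mono_aux (m : E × Bool) : ∀ a b : E × Bool,
    (a = m ∨ lt d a m) → (b = m ∨ lt d b m) → AdmL d (d.rk m.1) a → AdmR d (d.rk m.1) b →
    le R a b → F d a ≤ F d b := by
  induction m using (lt_wf d).induction with
  | _ m ih =>
  -- monotonicity for all admissible pairs strictly before `m`
  have IH : ∀ ρ, ∀ a b : E × Bool, lt d a m → lt d b m → AdmL d ρ a → AdmR d ρ b → le R a b →
      F d a ≤ F d b := by
    intro ρ a b ha hb ha' hb' hab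
    rcases lt_total d a b with h | h | h
    · refine ih b hb a b (.inr h) (.inl rfl) ?_ (.inl rfl) hab
      rcases ha' with ha' | ha'
      · rcases hb' with hb' | hb'
        · exact .inl (ha'.trans hb'.symm)
        · exfalso
          rw [lt_iff] at h
          rcases h with h | h
          · exact absurd (h.trans hb'.1) (by rw [ha']; exact lt_irrefl _)
          · exact absurd hb'.1 (by rw [← h.1, ha']; exact lt_irrefl _)
      · rw [lt_iff] at h
        rcases h with h | h
        · exact .inr ⟨h, ha'.2⟩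
        · exact .inl h.1
    · rw [h]
    · refine ih a ha a b (.inl rfl) (.inr h) (.inl rfl) ?_ hab
      rcases hb' with hb' | hb'
      · rcases ha' with ha' | ha'
        · exact .inl (hb'.trans ha'.symm)
        · exfalso
          rw [lt_iff] at h
          rcases h with h | h
          · exact absurd (h.trans ha'.1) (by rw [hb']; exact lt_irrefl _)
          · exact absurd ha'.1 (by rw [← h.1, hb']; exact lt_irrefl _)
      · rw [lt_iff] at h
        rcases h with h | h
        · exact .inr ⟨h, hb'.2⟩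
        · exact .inl h.1
  have hlo : ∀ z ∈ d.Lo m.1, lt d (z, false) m :=
    fun z hz => (lt_iff d _ _).2 (.inl (d.lo_lt _ _ hz))
  have hup : ∀ z ∈ d.Up m.1, lt d (z, true) m :=
    fun z hz => (lt_iff d _ _).2 (.inl (d.up_lt _ _ hz))
  have hup2 : ∀ z ∈ d.Up m.1, lt d (z, false) m :=
    fun z hz => (lt_iff d _ _).2 (.inl (d.up_lt _ _ hz))
  -- lower approximants are below upper approximants
  have hmid : ((d.Lo m.1).sup fun z => F d (z, false)) ≤ (d.Up m.1).inf fun z => F d (z, true) := by
    refine Finset.sup_le fun z hz => Finset.le_inf fun z' hz' => ?_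
    rcases d.mid _ z hz z' hz' with h | h
    · subst h
      refine IH (d.rk z) _ _ (hlo z hz) (hup z hz') (.inl rfl) (.inl rfl) (.inr ⟨rfl, by simp⟩)
    · -- z^- ≤ z^+ ≤ z'^- ≤ z'^+
      have e1 : F d (z, false) ≤ F d (z, true) :=
        IH (d.rk z) _ _ (hlo z hz) ((lt_iff d _ _).2 (.inl (d.lo_lt _ _ hz))) (.inl rfl) (.inl rfl)
          (.inr ⟨rfl, by simp⟩)
      have e2 : F d (z, true) ≤ F d (z', false) :=
        IH (d.rk m.1) _ _ ((lt_iff d _ _).2 (.inl (d.lo_lt _ _ hz))) (hup2 z' hz')
          (.inr ⟨d.lo_lt _ _ hz, rfl⟩) (.inr ⟨d.up_lt _ _ hz', rfl⟩) (.inl h)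
      have e3 : F d (z', false) ≤ F d (z', true) :=
        IH (d.rk z') _ _ (hup2 z' hz') (hup z' hz') (.inl rfl) (.inl rfl) (.inr ⟨rfl, by simp⟩)
      exact e1.trans (e2.trans e3)
  have hem_ep : emf d (F d) m ≤ epf d (F d) m :=
    inf_le_left.trans (hmid.trans le_sup_left)
  have hupT : ∀ w ∈ up d m, w ∈ T d m ∧ le R m w := fun w hw => Finset.mem_filter.1 hw
  have hdnT : ∀ w ∈ down d m, w ∈ T d m ∧ le R w m := fun w hw => Finset.mem_filter.1 hw
  have hem_up : emf d (F d) m ≤ (up d m).inf (F d) :=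
    Finset.le_inf fun w hw => inf_le_right.trans
      ((Finset.inf_le hw).trans (low_le _ _))
  have hdn_ep : (down d m).sup (F d) ≤ epf d (F d) m :=
    Finset.sup_le fun w hw => le_sup_of_le_right
      ((le_upp _ _).trans (Finset.le_sup (f := fun w => upp (base d m) (F d w)) hw))
  have hdn_up : (down d m).sup (F d) ≤ (up d m).inf (F d) :=
    Finset.sup_le fun z hz => Finset.le_inf fun w hw =>
      IH (d.rk m.1) z w (T_lt d (hdnT z hz).1) (T_lt d (hupT w hw).1)
        (.inl ((mem_T d).1 (hdnT z hz).1).1) (.inl ((mem_T d).1 (hupT w hw).1).1)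
        (le_trans' d (hdnT z hz).2 (hupT w hw).2)
  have hLow_le : emf d (F d) m ⊔ (down d m).sup (F d) ≤ F d m := by
    rw [F_eq d m]
    refine le_inf (sup_le (le_sup_of_le_left le_sup_right) le_sup_right)
      (le_inf (sup_le hem_ep hdn_ep) (sup_le hem_up hdn_up))
  have hUpp_le : F d m ≤ epf d (F d) m ⊓ (up d m).inf (F d) := le_inf (F_le_ep d m) (F_le_up d m)
  intro a b ha hb ha' hb' hab
  rcases ha with rfl | ha
  · rcases hb with rfl | hb
    · exact le_rfl
    · -- b before a = m
      rw [lt_iff] at hb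
      rcases hb with hb | hb
      · -- smaller rank
        have hbs : b.2 = false := by
          rcases hb' with hb' | hb'
          · exact absurd hb (by rw [hb']; exact lt_irrefl _)
          · exact hb'.2
        have hR : R a.1 b.1 := by
          rcases hab with h | h
          · exact h
          · exact absurd hb (by rw [h.1]; exact lt_irrefl _)
        obtain ⟨z, hz, hzb⟩ := d.up_ex _ _ hb hR
        refine hUpp_le.trans (inf_le_left.trans (sup_le ?_ ?_))
        · refine (Finset.inf_le hz).trans ?_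
          exact IH (d.rk a.1) (z, true) b (hup z hz) ((lt_iff d _ _).2 (.inl hb))
            (.inr ⟨d.up_lt _ _ hz, rfl⟩) (.inr ⟨hb, hbs⟩) (.inl hzb)
        · refine Finset.sup_le fun w hw => upp_le (F_supp_base d hb) ?_
          exact IH (d.rk a.1) w b (T_lt d (hdnT w hw).1) ((lt_iff d _ _).2 (.inl hb))
            (.inl ((mem_T d).1 (hdnT w hw).1).1) (.inr ⟨hb, hbs⟩)
            (le_trans' d (hdnT w hw).2 hab)
      · refine hUpp_le.trans (inf_le_right.trans (Finset.inf_le ?_))
        exact Finset.mem_filter.2 ⟨(mem_T d).2 hb, hab⟩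
  · rcases hb with rfl | hb
    · rw [lt_iff] at ha
      rcases ha with ha | ha
      · have has : a.2 = true := by
          rcases ha' with ha' | ha'
          · exact absurd ha (by rw [ha']; exact lt_irrefl _)
          · exact ha'.2
        have hR : R a.1 b.1 := by
          rcases hab with h | h
          · exact h
          · exact absurd ha (by rw [h.1]; exact lt_irrefl _)
        obtain ⟨z, hz, hzb⟩ := d.lo_ex _ _ ha hR
        refine le_trans (le_trans (le_inf ?_ ?_) le_sup_left) hLow_le
        · refine le_trans ?_ (Finset.le_sup (f := fun z => F d (z, false)) hz)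
          exact IH (d.rk b.1) a (z, false) ((lt_iff d _ _).2 (.inl ha)) (hlo z hz)
            (.inr ⟨ha, has⟩) (.inr ⟨d.lo_lt _ _ hz, rfl⟩) (.inl hzb)
        · refine Finset.le_inf fun w hw => le_low (F_supp_base d ha) ?_
          exact IH (d.rk b.1) a w ((lt_iff d _ _).2 (.inl ha)) (T_lt d (hupT w hw).1)
            (.inr ⟨ha, has⟩) (.inl ((mem_T d).1 (hupT w hw).1).1)
            (le_trans' d hab (hupT w hw).2)
      · refine le_trans ?_ hLow_le
        refine le_sup_of_le_right (Finset.le_sup (f := F d) ?_)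
        exact Finset.mem_filter.2 ⟨(mem_T d).2 ha, hab⟩
    · exact IH (d.rk m.1) a b ha hb ha' hb' hab

theorem mono {ρ : W} {a b : E × Bool} (ha' : AdmL d ρ a) (hb' : AdmR d ρ b) (hab : le R a b) :
    F d a ≤ F d b := by
  rcases lt_total d a b with h | h | h
  · refine mono_aux d b a b (.inr h) (.inl rfl) ?_ (.inl rfl) hab
    rcases ha' with ha' | ha'
    · rcases hb' with hb' | hb'
      · exact .inl (ha'.trans hb'.symm)
      · exfalso
        rw [lt_iff] at h
        rcases h with h | h
        · exact absurd (h.trans hb'.1) (by rw [ha']; exact lt_irrefl _)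
        · exact absurd hb'.1 (by rw [← h.1, ha']; exact lt_irrefl _)
    · rw [lt_iff] at h
      rcases h with h | h
      · exact .inr ⟨h, ha'.2⟩
      · exact .inl h.1
  · rw [h]
  · refine mono_aux d a a b (.inl rfl) (.inr h) (.inl rfl) ?_ hab
    rcases hb' with hb' | hb'
    · rcases ha' with ha' | ha'
      · exact .inl (hb'.trans ha'.symm)
      · exfalso
        rw [lt_iff] at h
        rcases h with h | h
        · exact absurd (h.trans ha'.1) (by rw [hb']; exact lt_irrefl _)
        · exact absurd ha'.1 (by rw [← h.1, hb']; exact lt_irrefl _)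
    · rw [lt_iff] at h
      rcases h with h | h
      · exact .inr ⟨h, hb'.2⟩
      · exact .inl h.1


def PP (m : E × Bool) : Prop := ∀ SA SB : Finset (E × Bool),
  (∀ a ∈ SA, a = m ∨ lt d a m) → (∀ b ∈ SB, b = m ∨ lt d b m) →
  (∀ a ∈ SA, AdmL d (d.rk m.1) a) → (∀ b ∈ SB, AdmR d (d.rk m.1) b) →
  SA.inf (F d) ≤ SB.sup (F d) → ∃ a ∈ SA, ∃ b ∈ SB, le R a b

omit [WellFoundedLT W] in
theorem exists_max (S : Finset (E × Bool)) (h : S.Nonempty) :
    ∃ n ∈ S, ∀ x ∈ S, x = n ∨ lt d x n := by
  obtain ⟨n, hn, hmax⟩ := Finset.exists_max_image S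
    (fun x => (toLex (d.rk x.1, pos d x) : W ×ₗ ℕ)) h
  refine ⟨n, hn, fun x hx => ?_⟩
  rcases lt_total d x n with h | h | h
  · exact .inr h
  · exact .inl h
  · exfalso
    have := hmax x hx
    rw [lt_iff] at h
    exact absurd this (not_le.2 (Prod.Lex.toLex_lt_toLex.2 h))

theorem not_top_le_bot : ¬ ((⊤ : BL (E × Bool)) ≤ ⊥) := by
  intro h
  exact h (fun _ => True) trivial

theorem of_max {ρ : W} {SA SB : Finset (E × Bool)}
    (hL : ∀ a ∈ SA, AdmL d ρ a) (hR : ∀ b ∈ SB, AdmR d ρ b)
    (hP : ∀ n, (n ∈ SA ∨ n ∈ SB) → PP d n)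
    (hle : SA.inf (F d) ≤ SB.sup (F d)) : ∃ a ∈ SA, ∃ b ∈ SB, le R a b := by
  by_cases hne : (SA ∪ SB).Nonempty
  · obtain ⟨n, hn, hmax⟩ := exists_max d _ hne
    have hn' : n ∈ SA ∨ n ∈ SB := Finset.mem_union.1 hn
    have hnρ : d.rk n.1 ≤ ρ := by
      rcases hn' with h | h
      · rcases hL n h with h | h
        · exact h.le
        · exact h.1.le
      · rcases hR n h with h | h
        · exact h.le
        · exact h.1.le
    refine hP n hn' SA SB (fun a ha => hmax a (Finset.mem_union_left _ ha))
      (fun b hb => hmax b (Finset.mem_union_right _ hb)) ?_ ?_ hle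
    · intro a ha
      rcases hmax a (Finset.mem_union_left _ ha) with h | h
      · exact .inl (by rw [h])
      · rw [lt_iff] at h
        rcases h with h | h
        · rcases hL a ha with h' | h'
          · exact absurd (h.trans_le hnρ) (by rw [h']; exact lt_irrefl _)
          · exact .inr ⟨h, h'.2⟩
        · exact .inl h.1
    · intro a ha
      rcases hmax a (Finset.mem_union_right _ ha) with h | h
      · exact .inl (by rw [h])
      · rw [lt_iff] at h
        rcases h with h | h
        · rcases hR a ha with h' | h'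
          · exact absurd (h.trans_le hnρ) (by rw [h']; exact lt_irrefl _)
          · exact .inr ⟨h, h'.2⟩
        · exact .inl h.1
  · rw [Finset.not_nonempty_iff_eq_empty, Finset.union_eq_empty] at hne
    rw [hne.1, hne.2] at hle
    exact absurd hle not_top_le_bot

/-- symbols before `m` -/
def bef (m : E × Bool) : Set (E × Bool) := {y | lt d y m}

theorem F_supp_bef {a m : E × Bool} (h : lt d a m) : Supp (bef d m) (F d a) := by
  refine (F_supp d a).mono ?_
  rintro z (rfl | hz)
  · exact h
  · exact lt_trans' d hz h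

omit [WellFoundedLT W] in
theorem base_sub_bef (x : E × Bool) : base d x ⊆ bef d x :=
  fun _ hy => (lt_iff d _ _).2 (.inl hy)

theorem em_supp (m : E × Bool) : Supp (bef d m) (emf d (F d) m) :=
  .inf (supp_sup _ _ fun z hz => F_supp_bef d ((lt_iff d _ _).2 (.inl (d.lo_lt _ _ hz))))
    (supp_inf _ _ fun z _ => (low_supp _ (F_supp d z)).mono (base_sub_bef d m))

theorem ep_supp (m : E × Bool) : Supp (bef d m) (epf d (F d) m) :=
  .sup (supp_inf _ _ fun z hz => F_supp_bef d ((lt_iff d _ _).2 (.inl (d.up_lt _ _ hz))))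
    (supp_sup _ _ fun z _ => (upp_supp _ (F_supp d z)).mono (base_sub_bef d m))

theorem dn_supp (m : E × Bool) : Supp (bef d m) ((down d m).sup (F d)) :=
  supp_sup _ _ fun _ hz => F_supp_bef d (T_lt d (Finset.mem_filter.1 hz).1)

theorem up_supp (m : E × Bool) : Supp (bef d m) ((up d m).inf (F d)) :=
  supp_inf _ _ fun _ hz => F_supp_bef d (T_lt d (Finset.mem_filter.1 hz).1)

/-- substitution of the generator `m` -/
noncomputable def sub (m : E × Bool) (c : BL (E × Bool)) :
    BoundedLatticeHom (BL (E × Bool)) (BL (E × Bool)) :=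
  BL.lift (fun y => if y = m then c else BL.var y)

theorem sub_fix {m : E × Bool} (c : BL (E × Bool)) {t : BL (E × Bool)} (h : Supp (bef d m) t) :
    sub m c t = t := by
  refine Supp.lift_eq (fun y hy => ?_) h
  have : y ≠ m := by
    rintro rfl
    have h : lt d y y := hy
    rw [lt_iff] at h
    rcases h with h | h
    · exact lt_irrefl _ h
    · exact lt_irrefl _ h.2
  simp [this]

theorem sub_var (m : E × Bool) (c : BL (E × Bool)) : sub m c (BL.var m) = c := by
  simp [sub, BL.lift_var]

theorem sub_F_top (m : E × Bool) :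
    sub m ⊤ (F d m) = epf d (F d) m ⊓ (up d m).inf (F d) := by
  conv_lhs => rw [F_eq]
  unfold stp
  rw [map_inf, map_sup, map_sup, sub_var, sub_fix d ⊤ (.inf (ep_supp d m) (up_supp d m))]
  exact inf_eq_right.2 (le_sup_of_le_left (le_sup_of_le_left le_top))

theorem sub_F_bot (m : E × Bool) :
    sub m ⊥ (F d m) ≤ emf d (F d) m ⊔ (down d m).sup (F d) := by
  conv_lhs => rw [F_eq]
  unfold stp
  rw [map_inf, map_sup, map_sup, sub_var, sub_fix d ⊥ (em_supp d m),
    sub_fix d ⊥ (dn_supp d m)]
  exact inf_le_left.trans (sup_le (sup_le bot_le le_sup_left) le_sup_right)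

set_option maxHeartbeats 4000000 in
theorem pp (m : E × Bool) : PP d m := by
  induction m using (lt_wf d).induction with
  | _ m ih =>
  have Q : ∀ {SA SB : Finset (E × Bool)}, (∀ a ∈ SA, lt d a m) → (∀ b ∈ SB, lt d b m) →
      (∀ a ∈ SA, AdmL d (d.rk m.1) a) → (∀ b ∈ SB, AdmR d (d.rk m.1) b) →
      SA.inf (F d) ≤ SB.sup (F d) → ∃ a ∈ SA, ∃ b ∈ SB, le R a b := by
    intro SA SB ha hb hL hR hle
    exact of_max d hL hR (fun n hn => ih n (hn.elim (ha n) (hb n))) hle
  intro SA SB ha hb hL hR hle
  have hbefA : ∀ a ∈ SA, a ≠ m → lt d a m := fun a h h' => (ha a h).resolve_left h'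
  have hbefB : ∀ a ∈ SB, a ≠ m → lt d a m := fun a h h' => (hb a h).resolve_left h'
  by_cases hmA : m ∈ SA
  · by_cases hmB : m ∈ SB
    · exact ⟨m, hmA, m, hmB, .inr ⟨rfl, le_rfl⟩⟩
    · have hBlt : ∀ b ∈ SB, lt d b m := fun b h => hbefB b h (fun e => hmB (e ▸ h))
      have hA' : ∀ a ∈ SA.erase m, lt d a m := fun a h =>
        hbefA a (Finset.mem_of_mem_erase h) (Finset.ne_of_mem_erase h)
      rw [← Finset.insert_erase hmA, Finset.inf_insert] at hle
      have h2 := OrderHomClass.mono (sub m ⊤) hle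
      rw [map_inf, sub_F_top, sub_fix d ⊤ (supp_inf _ _ fun a h => F_supp_bef d (hA' a h)),
        sub_fix d ⊤ (supp_sup _ _ fun a h => F_supp_bef d (hBlt a h))] at h2
      let S2 : Finset (E × Bool) := (d.Up m.1).image (fun z => (z, true)) ∪ (up d m ∪ SA.erase m)
      have h3 : S2.inf (F d) ≤ SB.sup (F d) := by
        refine le_trans (le_inf (le_inf (le_sup_of_le_left ?_) ?_) ?_) h2
        · refine Finset.le_inf fun z hz => Finset.inf_le (f := F d) ?_
          exact Finset.mem_union_left _ (Finset.mem_image_of_mem _ hz)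
        · exact Finset.inf_mono (Finset.subset_union_left.trans Finset.subset_union_right)
        · exact Finset.inf_mono (Finset.subset_union_right.trans Finset.subset_union_right)
      have hcase : ∀ a ∈ S2, (∃ z ∈ d.Up m.1, a = (z, true)) ∨ a ∈ up d m ∨ a ∈ SA.erase m := by
        intro a h
        rcases Finset.mem_union.1 h with h | h
        · obtain ⟨z, hz, rfl⟩ := Finset.mem_image.1 h
          exact .inl ⟨z, hz, rfl⟩
        · exact .inr (Finset.mem_union.1 h)
      have k1 : ∀ a ∈ S2, lt d a m := by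
        intro a h
        rcases hcase a h with ⟨z, hz, rfl⟩ | h | h
        · exact (lt_iff d _ _).2 (.inl (d.up_lt _ _ hz))
        · exact T_lt d (Finset.mem_filter.1 h).1
        · exact hA' a h
      have k2 : ∀ a ∈ S2, AdmL d (d.rk m.1) a := by
        intro a h
        rcases hcase a h with ⟨z, hz, rfl⟩ | h | h
        · exact .inr ⟨d.up_lt _ _ hz, rfl⟩
        · exact .inl ((mem_T d).1 (Finset.mem_filter.1 h).1).1
        · exact hL a (Finset.mem_of_mem_erase h)
      obtain ⟨a, haS, b, hbS, hab⟩ := Q (SA := S2) (SB := SB) k1 hBlt k2 hR h3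
      · rcases hcase a haS with ⟨z, hz, rfl⟩ | h | h
        · refine ⟨m, hmA, b, hbS, ?_⟩
          rcases hab with h | h
          · exact .inl (d.up_R _ _ hz _ h)
          · exfalso
            have h1 : b.2 = true := true_le_imp h.2
            have h2' : d.rk b.1 < d.rk m.1 := by
              have h4 : z = b.1 := h.1
              rw [← h4]; exact d.up_lt _ _ hz
            rcases hR b hbS with h' | h'
            · exact absurd h2' (by rw [h']; exact lt_irrefl _)
            · rw [h1] at h'; exact absurd h'.2 (by simp)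
        · exact ⟨m, hmA, b, hbS, le_trans' d (Finset.mem_filter.1 h).2 hab⟩
        · exact ⟨a, Finset.mem_of_mem_erase h, b, hbS, hab⟩
  · have hAlt : ∀ a ∈ SA, lt d a m := fun a h => hbefA a h (fun e => hmA (e ▸ h))
    by_cases hmB : m ∈ SB
    · have hB' : ∀ a ∈ SB.erase m, lt d a m := fun a h =>
        hbefB a (Finset.mem_of_mem_erase h) (Finset.ne_of_mem_erase h)
      rw [← Finset.insert_erase hmB, Finset.sup_insert] at hle
      have h2 := OrderHomClass.mono (sub m ⊥) hle
      rw [map_sup, sub_fix d ⊥ (supp_inf _ _ fun a h => F_supp_bef d (hAlt a h)),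
        sub_fix d ⊥ (supp_sup _ _ fun a h => F_supp_bef d (hB' a h))] at h2
      have h2' := h2.trans (sup_le_sup_right (sub_F_bot d m) _)
      let S2 : Finset (E × Bool) := (d.Lo m.1).image (fun z => (z, false)) ∪ (down d m ∪ SB.erase m)
      have h3 : SA.inf (F d) ≤ S2.sup (F d) := by
        refine h2'.trans (sup_le (sup_le (inf_le_left.trans ?_) ?_) ?_)
        · refine Finset.sup_le fun z hz => Finset.le_sup (f := F d) ?_
          exact Finset.mem_union_left _ (Finset.mem_image_of_mem _ hz)
        · exact Finset.sup_mono (Finset.subset_union_left.trans Finset.subset_union_right)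
        · exact Finset.sup_mono (Finset.subset_union_right.trans Finset.subset_union_right)
      have hcase : ∀ a ∈ S2, (∃ z ∈ d.Lo m.1, a = (z, false)) ∨ a ∈ down d m ∨ a ∈ SB.erase m := by
        intro a h
        rcases Finset.mem_union.1 h with h | h
        · obtain ⟨z, hz, rfl⟩ := Finset.mem_image.1 h
          exact .inl ⟨z, hz, rfl⟩
        · exact .inr (Finset.mem_union.1 h)
      have k1 : ∀ a ∈ S2, lt d a m := by
        intro a h
        rcases hcase a h with ⟨z, hz, rfl⟩ | h | h
        · exact (lt_iff d _ _).2 (.inl (d.lo_lt _ _ hz))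
        · exact T_lt d (Finset.mem_filter.1 h).1
        · exact hB' a h
      have k2 : ∀ a ∈ S2, AdmR d (d.rk m.1) a := by
        intro a h
        rcases hcase a h with ⟨z, hz, rfl⟩ | h | h
        · exact .inr ⟨d.lo_lt _ _ hz, rfl⟩
        · exact .inl ((mem_T d).1 (Finset.mem_filter.1 h).1).1
        · exact hR a (Finset.mem_of_mem_erase h)
      obtain ⟨a, haS, b, hbS, hab⟩ := Q (SA := SA) (SB := S2) hAlt k1 hL k2 h3
      · rcases hcase b hbS with ⟨z, hz, rfl⟩ | h | h
        · refine ⟨a, haS, m, hmB, ?_⟩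
          rcases hab with h | h
          · exact .inl (d.lo_R _ _ hz _ h)
          · exfalso
            have h1 : a.2 = false := le_false_imp h.2
            have h2' : d.rk a.1 < d.rk m.1 := by
              have h4 : a.1 = z := h.1
              rw [h4]; exact d.lo_lt _ _ hz
            rcases hL a haS with h' | h'
            · exact absurd h2' (by rw [h']; exact lt_irrefl _)
            · rw [h1] at h'; exact absurd h'.2 (by simp)
        · exact ⟨a, haS, m, hmB, le_trans' d hab (Finset.mem_filter.1 h).2⟩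
        · exact ⟨a, haS, b, Finset.mem_of_mem_erase h, hab⟩
    · have hBlt : ∀ b ∈ SB, lt d b m := fun b h => hbefB b h (fun e => hmB (e ▸ h))
      exact Q hAlt hBlt hL hR hle

end HH

theorem t_HD (E : Type u) (R : E → E → Prop) (hRD : H91FL.RankData E R) :
    ∃ f g : E → BL (E × Bool), (∀ x, f x ≤ g x) ∧ (∀ x y, g x ≤ f y ↔ R x y) ∧
      ∀ x, ∃ S, Supp S (g x) := by
  revert hRD
  rintro ⟨W, iW, wf, rk, idx, Lo, Up, h1, h2, h3, h4, h5, h6, h7⟩
  let d : HH.Data E R W :=
    { rk := rk, idx := idx, Lo := Lo, Up := Up, trans := h1, inj := h2,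
      lo_lt := fun x z hz => (h3 x z hz).1, lo_R := fun x z hz => (h3 x z hz).2,
      up_lt := fun x z hz => (h4 x z hz).1, up_R := fun x z hz => (h4 x z hz).2,
      lo_ex := h5, up_ex := h6, mid := h7 }
  refine ⟨fun x => HH.F d (x, false), fun x => HH.F d (x, true), fun x => ?_, fun x y => ⟨?_, ?_⟩,
    fun x => ⟨_, HH.F_supp d (x, true)⟩⟩
  · exact HH.mono d (ρ := d.rk x) (.inl rfl) (.inl rfl) (.inr ⟨rfl, by simp⟩)
  · intro h
    have h' : ({(x, true)} : Finset (E × Bool)).inf (HH.F d) ≤
        ({(y, false)} : Finset (E × Bool)).sup (HH.F d) := by simpa using h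
    have k1 : ∀ a ∈ ({(x, true)} : Finset (E × Bool)), HH.AdmL d (max (d.rk x) (d.rk y)) a := by
      intro a ha
      rw [Finset.mem_singleton] at ha
      subst ha
      rcases (le_max_left (d.rk x) (d.rk y)).lt_or_eq with h | h
      · exact .inr ⟨h, rfl⟩
      · exact .inl h
    have k2 : ∀ a ∈ ({(y, false)} : Finset (E × Bool)), HH.AdmR d (max (d.rk x) (d.rk y)) a := by
      intro a ha
      rw [Finset.mem_singleton] at ha
      subst ha
      rcases (le_max_right (d.rk x) (d.rk y)).lt_or_eq with h | h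
      · exact .inr ⟨h, rfl⟩
      · exact .inl h
    obtain ⟨a, ha, b, hb, hab⟩ := HH.of_max d k1 k2 (fun n _ => HH.pp d n) h'
    rw [Finset.mem_singleton] at ha hb
    subst ha hb
    rcases hab with h | h
    · exact h
    · exact absurd (HH.true_le_imp h.2) Bool.false_ne_true
  · intro h
    refine HH.mono d (ρ := max (d.rk x) (d.rk y)) ?_ ?_ (.inl h)
    · rcases (le_max_left (d.rk x) (d.rk y)).lt_or_eq with h | h
      · exact .inr ⟨h, rfl⟩
      · exact .inl h
    · rcases (le_max_right (d.rk x) (d.rk y)).lt_or_eq with h | h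
      · exact .inr ⟨h, rfl⟩
      · exact .inl h

end H91FD
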