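import Pool.Agent.H91FL.Stubs

universe u v w

open Cardinal

namespace H91FL
namespace PWWFNme

open Set

theorem countable_BTerm (X : Type u) [Countable X] : Countable (BTerm X) := by
  classical
  obtain ⟨e, he⟩ := exists_injective_nat X
  let c : BTerm X → ℕ := fun t => BTerm.rec (fun x => Nat.pair 0 (e x)) (Nat.pair 1 0) (Nat.pair 2 0)
    (fun _ _ a b => Nat.pair 3 (Nat.pair a b)) (fun _ _ a b => Nat.pair 4 (Nat.pair a b)) t
  have hc : Function.Injective c := by
    intro s
    induction s with
    | var x => intro t; cases t <;> simp [c, Nat.pair_eq_pair, he.eq_iff]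
    | bot => intro t; cases t <;> simp [c, Nat.pair_eq_pair]
    | top => intro t; cases t <;> simp [c, Nat.pair_eq_pair]
    | sup a b ha hb =>
      intro t
      cases t with
      | sup a' b' =>
        simp only [c, Nat.pair_eq_pair, true_and]
        rintro ⟨h1, h2⟩
        rw [ha h1, hb h2]
      | _ => simp [c, Nat.pair_eq_pair]
    | inf a b ha hb =>
      intro t
      cases t with
      | inf a' b' =>
        simp only [c, Nat.pair_eq_pair, true_and]
        rintro ⟨h1, h2⟩
        rw [ha h1, hb h2]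
      | _ => simp [c, Nat.pair_eq_pair]
  exact hc.countable

theorem countable_supp {X : Type u} {S : Set X} (hS : S.Countable) :
    {c : BL X | Supp S c}.Countable := by
  haveI : Countable S := hS.to_subtype
  haveI := countable_BTerm S
  have : {c : BL X | Supp S c} ⊆ Set.range (fun t : BTerm S =>
      BL.lift (fun x : S => BL.var x.1) (Quotient.mk _ t)) := by
    intro c hc
    induction hc with
    | @var x hx => exact ⟨.var ⟨x, hx⟩, rfl⟩
    | bot => exact ⟨.bot, rfl⟩
    | top => exact ⟨.top, rfl⟩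
    | sup _ _ h1 h2 =>
      obtain ⟨t1, rfl⟩ := h1
      obtain ⟨t2, rfl⟩ := h2
      exact ⟨.sup t1 t2, rfl⟩
    | inf _ _ h1 h2 =>
      obtain ⟨t1, rfl⟩ := h1
      obtain ⟨t2, rfl⟩ := h2
      exact ⟨.inf t1 t2, rfl⟩
  exact (Set.countable_range _).mono this

theorem main : S_PWWFN := by
  classical
  rintro ⟨X, ⟨f⟩⟩
  choose s hs using fun t : BL X => exists_finset_supp t
  let N : Set ℕ → Set X := fun a => ⋃ i, (s (f (.p a i)) : Set X)
  let M : Set ℕ → Set X := fun b => ⋃ j, (s (f (.r b j)) : Set X)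
  have hN : ∀ a, (N a).Countable := fun a => countable_iUnion fun i => Finset.countable_toSet _
  have hM : ∀ a, (M a).Countable := fun a => countable_iUnion fun i => Finset.countable_toSet _
  let e : BL X → Set ℕ := fun c => {n | ∃ a i, f (.p a i) ≤ c ∧ n ∈ a ∧ n < i}
  refine ⟨fun a => e '' {c | Supp (N a) c} ∪ e '' {c | Supp (M a) c}, fun a =>
    ((countable_supp (hN a)).image _).union ((countable_supp (hM a)).image _), ?_⟩
  intro a b hab
  let x := f (.x a b hab)
  let g := low (N a) x
  let c := upp (M b) g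
  have hg : Supp (N a) g := low_supp _ _
  have hc : Supp (M b ∩ N a) c := upp_supp_inter _ hg
  have h1 : ∀ i, f (.p a i) ≤ g := by
    intro i
    refine le_low ((hs _).mono (subset_iUnion (fun i => (s (f (.p a i)) : Set X)) i)) ?_
    exact f.monotone (show PW.le _ _ by simp [PW.le])
  have h2 : ∀ j, c ≤ f (.r b j) := by
    intro j
    refine upp_le ((hs _).mono (subset_iUnion (fun i => (s (f (.r b i)) : Set X)) j)) ?_
    refine (low_le _ _).trans (f.monotone (show PW.le _ _ by simp [PW.le]))
  have h3 : ∀ i, f (.p a i) ≤ c := fun i => (h1 i).trans (le_upp _ _)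
  refine ⟨e c, .inl ⟨c, hc.mono inter_subset_right, rfl⟩, .inr ⟨c, hc.mono inter_subset_left, rfl⟩,
    fun n hn => ⟨a, n + 1, h3 _, hn, Nat.lt_succ_self n⟩, ?_⟩
  rintro n ⟨a', i, h4, h5, h6⟩
  have h7 : (PW.p a' i : PW) ≤ .r b (n + 1) := f.le_iff_le.1 (h4.trans (h2 _))
  exact h7 n h5 h6 (Nat.lt_succ_self n)

end PWWFNme

theorem t_PWWFN : S_PWWFN := PWWFNme.main

end H91FL
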