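import Pool.Agent.H91FL.Defs

universe u v w

open Cardinal

namespace H91FL

/-- Freese–Nation property of a poset -/
def FNProp (Q : Type u) [PartialOrder Q] : Prop :=
  ∃ F : Q → Finset Q, ∀ p q : Q, p ≤ q → ∃ r, r ∈ F p ∧ r ∈ F q ∧ p ≤ r ∧ r ≤ q

/-- Rank data for a transitive relation `R` on `E`. -/
def RankData (E : Type u) (R : E → E → Prop) : Prop :=
  ∃ (W : Type u) (_ : LinearOrder W) (_ : WellFoundedLT W) (rk : E → W) (idx : E → ℕ)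
    (Lo Up : E → Finset E),
    (∀ x y z, R x y → R y z → R x z) ∧
    (∀ x y, rk x = rk y → idx x = idx y → x = y) ∧
    (∀ x, ∀ z ∈ Lo x, rk z < rk x ∧ ∀ y, R y z → R y x) ∧
    (∀ x, ∀ z ∈ Up x, rk z < rk x ∧ ∀ y, R z y → R x y) ∧
    (∀ x y, rk y < rk x → R y x → ∃ z ∈ Lo x, R y z) ∧
    (∀ x y, rk y < rk x → R x y → ∃ z ∈ Up x, R z y) ∧
    (∀ x, ∀ z ∈ Lo x, ∀ z' ∈ Up x, z = z' ∨ R z z')

def S_EQ : Prop := ∀ (P : Type u) [PartialOrder P], EmbedsFree P ↔ EmbedsFreeB P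

def S_FNBL : Prop := ∀ X : Type u, FNProp (BL X)

def S_H : Prop := ∀ (E : Type u) (R : E → E → Prop), RankData E R →
  ∃ f g : E → BL (E × Bool), (∀ x, f x ≤ g x) ∧ ∀ x y, g x ≤ f y ↔ R x y

def S_FNRANK : Prop := ∀ (Q : Type u) [PartialOrder Q], FNProp Q → RankData Q (· ≤ ·)

def S_CLO : Prop := ∀ (Y : Type u), #Y ≤ ℵ₁ → ∀ F : Finset Y → Finset Y → Finset Y,
  ∃ (W : Type u) (_ : LinearOrder W) (_ : WellFoundedLT W) (Z : W → Set Y),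
    (∀ β, (Z β).Countable) ∧ (∀ β γ, β ≤ γ → Z β ⊆ Z γ) ∧ Nonempty W ∧
    (∀ y, ∃ β, y ∈ Z β) ∧
    (∀ β, ∀ b a : Finset Y, (b : Set Y) ⊆ Z β → (a : Set Y) ⊆ Z β → (F b a : Set Y) ⊆ Z β)

/-- conclusion of the closure argument -/
def RepRank (P : Type u) [PartialOrder P] : Prop :=
  ∃ (E : Type u) (R : E → E → Prop), RankData E R ∧ ∃ j : P → E, ∀ p q, p ≤ q ↔ R (j p) (j q)

def S_REP : Prop := S_CLO.{u} → ∀ (P : Type u) [PartialOrder P], #P ≤ ℵ₁ → FinRep P → RepRank P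

def S_BIP : Prop := ∀ (P : Type u) [PartialOrder P], (∀ p q r : P, p < q → ¬ q < r) →
  FinRep P → EmbedsFreeB P

/-- The poset `PW`. -/
inductive PW : Type
  | p (a : Set ℕ) (i : ℕ)
  | x (a b : Set ℕ) (h : a ⊆ b)
  | r (b : Set ℕ) (j : ℕ)

def PW.le : PW → PW → Prop
  | .p a i, .p a' i' => a = a' ∧ i = i'
  | .x a b _, .x a' b' _ => a = a' ∧ b = b'
  | .r b j, .r b' j' => b = b' ∧ j = j'
  | .p a _, .x a' _ _ => a = a'
  | .x _ b _, .r b' _ => b = b'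
  | .p a i, .r b j => ∀ n ∈ a, n < i → n < j → n ∈ b
  | _, _ => False

instance : PartialOrder PW where
  le := PW.le
  le_refl := by rintro (⟨a, i⟩ | ⟨a, b, h⟩ | ⟨b, j⟩) <;> simp [PW.le]
  le_trans := by
    rintro (⟨a, i⟩ | ⟨a, b, h⟩ | ⟨b, j⟩) (⟨a', i'⟩ | ⟨a', b', h'⟩ | ⟨b', j'⟩)
      (⟨a'', i''⟩ | ⟨a'', b'', h''⟩ | ⟨b'', j''⟩) <;> simp only [PW.le, and_imp, false_implies,
        imp_false, implies_true, not_false_eq_true] <;> intros <;> subst_vars <;> aesop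
  le_antisymm := by
    rintro (⟨a, i⟩ | ⟨a, b, h⟩ | ⟨b, j⟩) (⟨a', i'⟩ | ⟨a', b', h'⟩ | ⟨b', j'⟩) <;>
      simp +contextual [PW.le]

/-- weak Freese–Nation property of `(P(ω), ⊆)` -/
def WFN : Prop := ∃ F : Set ℕ → Set (Set ℕ), (∀ a, (F a).Countable) ∧
  ∀ a b, a ⊆ b → ∃ e, e ∈ F a ∧ e ∈ F b ∧ a ⊆ e ∧ e ⊆ b

def S_PWREP : Prop := FinRep PW

def S_PWWFN : Prop := EmbedsFreeB PW → WFN

/-- Bernstein-type diagonalisation -/
def S_BERN : Prop := ∀ (T I : Type) (_ : Uncountable T) (_ : #I ≤ ℵ₁) (C : I → Set T),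
  ∃ D : Set T, ¬ (Dᶜ).Countable ∧ ∀ i, ¬ (C i).Countable → (C i ∩ D).Nonempty

/-- an uncountable Q-set of reals -/
def QSet : Prop := ∃ T : Set (ℕ → Bool), ¬ T.Countable ∧
  ∀ D ⊆ T, ∃ K : ℕ → Set (ℕ → Bool), (∀ n, IsClosed (K n)) ∧ D = T ∩ ⋃ n, K n

def S_QSET : Prop := S_BERN → QSet → ¬ WFN

end H91FL
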